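import Pool.Agent.Lib.MP_610fe3_an.Shadow

/-!
# Exponential closeness of orbit segments that stay close
-/

open Set Filter Function
open scoped Topology

namespace Pool.Agent.Lib.MP610fe3

section Abstract

variable {M W : Type*} [MetricSpace M] [CompactSpace M] [NormedAddCommGroup W] [NormedSpace ℝ W]
  {E : Emb M W} {f : M ≃ₜ M}

/-- A map with a derivative is Lipschitz at small scales. -/
theorem HasD.exists_lip {h : M → M} {D : M → W →L[ℝ] W} (H : HasD E h D) :
    ∃ L r : ℝ, 1 ≤ L ∧ 0 < r ∧ ∀ x z, dist x z < r → dist (h x) (h z) ≤ L * dist x z := by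
  obtain ⟨K, hK1, hK⟩ := exists_norm_bound H.cont
  obtain ⟨r, hr, h1⟩ := H.approx 1 one_pos
  refine ⟨K + 1, r, by linarith, hr, fun x z hxz => ?_⟩
  rw [dist_comm] at hxz
  have h2 := h1 x z hxz
  rw [dist_comm (h x), dist_comm x, E.dist_eq (h z)]
  calc ‖E.e (h z) - E.e (h x)‖
      = ‖(E.e (h z) - E.e (h x) - D x (E.e z - E.e x)) + D x (E.e z - E.e x)‖ := by
        congr 1; abel
    _ ≤ 1 * dist z x + K * dist z x := by
        refine (norm_add_le _ _).trans (add_le_add h2 ?_)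
        rw [E.dist_eq]
        exact (D x).le_of_opNorm_le (hK x) _
    _ = (K + 1) * dist z x := by ring

/-- Orbit segments that stay `c`-close are exponentially close in the middle. -/
theorem Split.exp_close (s : Split E f) (hs : s.Hyperbolic) :
    ∃ c₀ C θ : ℝ, 0 < c₀ ∧ 1 ≤ C ∧ 0 < θ ∧ θ < 1 ∧ ∀ c, c ≤ c₀ → ∀ (x y : M) (m : ℕ),
      (∀ k ≤ m, dist (f^[k] x) (f^[k] y) ≤ c) →
      ∀ k ≤ m, dist (f^[k] x) (f^[k] y) ≤ C * c * (θ ^ k + θ ^ (m - k)) := by
  obtain ⟨k₀, r, hr, -, htri⟩ := s.exists_triple hs (show (0 : ℝ) < 1 / 8 by norm_num) le_rfl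
  obtain ⟨L, r', hL1, hr', hlip⟩ := s.hD.exists_lip
  set N := k₀ + 1 with hN
  have hNpos : 0 < N := Nat.succ_pos _
  set θ : ℝ := (1 / 2 : ℝ) ^ (1 / (N : ℝ)) with hθ
  have hNR : (0 : ℝ) < N := by exact_mod_cast hNpos
  have hθpos : 0 < θ := Real.rpow_pos_of_pos (by norm_num) _
  have hθ1 : θ < 1 := Real.rpow_lt_one (by norm_num) (by norm_num) (by positivity)
  have hθN : θ ^ N = 1 / 2 := by
    rw [hθ, ← Real.rpow_natCast, ← Real.rpow_mul (by norm_num), one_div_mul_cancel hNR.ne',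
      Real.rpow_one]
  refine ⟨min (r / 2) (r' / 2), 2 * L ^ N, θ, lt_min (by positivity) (by positivity), ?_, hθpos,
    hθ1, ?_⟩
  · nlinarith [one_le_pow₀ hL1 (n := N)]
  intro c hc x y m hd k hk
  have hcr : c < r := lt_of_le_of_lt (hc.trans (min_le_left _ _)) (by linarith)
  have hcr' : c < r' := lt_of_le_of_lt (hc.trans (min_le_right _ _)) (by linarith)
  have hc0 : 0 ≤ c := dist_nonneg.trans (hd 0 (Nat.zero_le _))
  set n := m / N with hn
  have hNn : N * n ≤ m := Nat.mul_div_le m N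
  -- the interval estimate for the iterate
  have hint : ∀ q ≤ n, dist (f^[N * q] x) (f^[N * q] y) ≤ c * (1 / 2 ^ q + 1 / 2 ^ (n - q)) := by
    intro q hq
    refine real_interval (d := fun q => dist (f^[N * q] x) (f^[N * q] y)) (r := c) (n := n)
      (fun _ _ => dist_nonneg) (fun q hq => hd _ ?_) (fun q hq => ?_) q hq
    · exact (Nat.mul_le_mul_left N hq).trans hNn
    · have hle : ∀ q', q' ≤ n → N * q' ≤ m := fun q' h => (Nat.mul_le_mul_left N h).trans hNn
      have e1 : ∀ w, f^[N * (q + 1)] w = f^[N] (f^[N * q] w) := by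
        intro w
        rw [← iterate_add_apply]; congr 1; congr 1; ring
      have e2 : ∀ w, f^[N * (q + 2)] w = f^[N] (f^[N] (f^[N * q] w)) := by
        intro w
        rw [← iterate_add_apply, ← iterate_add_apply]; congr 1; congr 1; ring
      have d0 := hd (N * q) (hle q (by omega))
      have d1 := hd (N * (q + 1)) (hle (q + 1) (by omega))
      have d2 := hd (N * (q + 2)) (hle (q + 2) (by omega))
      rw [e1, e1] at d1
      rw [e2, e2] at d2
      simp only [e1, e2]
      exact htri _ _ (lt_of_le_of_lt d0 hcr) (lt_of_le_of_lt d1 hcr) (lt_of_le_of_lt d2 hcr)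
  -- Lipschitz estimate
  have hLip : ∀ i j, i + j ≤ m →
      dist (f^[i + j] x) (f^[i + j] y) ≤ L ^ j * dist (f^[i] x) (f^[i] y) := by
    intro i j
    induction j with
    | zero => intro _; simp
    | succ j ih =>
      intro hij
      have h1 := ih (by omega)
      have h2 := hlip (f^[i + j] x) (f^[i + j] y) (lt_of_le_of_lt (hd _ (by omega)) hcr')
      rw [← add_assoc, iterate_succ_apply', iterate_succ_apply']
      calc _ ≤ L * dist (f^[i + j] x) (f^[i + j] y) := h2
        _ ≤ L * (L ^ j * dist (f^[i] x) (f^[i] y)) := by gcongr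
        _ = L ^ (j + 1) * dist (f^[i] x) (f^[i] y) := by ring
  set q := k / N with hq
  set j := k % N with hj
  have hkq : N * q + j = k := Nat.div_add_mod k N
  have hjN : j < N := Nat.mod_lt _ hNpos
  have hqn : q ≤ n := Nat.div_le_div_right hk
  have h1 := hLip (N * q) j (by omega)
  rw [hkq] at h1
  have h2 := hint q hqn
  have h3 : (1 : ℝ) / 2 ^ q ≤ 2 * θ ^ k := by
    have e : (1 : ℝ) / 2 ^ q = θ ^ (N * q) := by
      rw [pow_mul, hθN, one_div_pow]
    rw [e]
    have e2 : θ ^ (N * q + N) ≤ θ ^ k := pow_le_pow_of_le_one hθpos.le hθ1.le (by omega)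
    rw [pow_add, hθN] at e2
    linarith
  have h4 : (1 : ℝ) / 2 ^ (n - q) ≤ 2 * θ ^ (m - k) := by
    have e : (1 : ℝ) / 2 ^ (n - q) = θ ^ (N * (n - q)) := by
      rw [pow_mul, hθN, one_div_pow]
    rw [e]
    have hm : m < N * n + N := by
      have := Nat.lt_mul_div_succ m hNpos
      rw [hn]
      linarith [Nat.mul_succ N (m / N)]
    have e3 : N * (n - q) = N * n - N * q := Nat.mul_sub N n q
    have e4 : N * q ≤ N * n := Nat.mul_le_mul_left N hqn
    have e2 : θ ^ (N * (n - q) + N) ≤ θ ^ (m - k) :=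
      pow_le_pow_of_le_one hθpos.le hθ1.le (by omega)
    rw [pow_add, hθN] at e2
    linarith
  have hLj : L ^ j ≤ L ^ N := pow_le_pow_right₀ hL1 hjN.le
  have hL0 : 0 ≤ L ^ N := by positivity
  calc dist (f^[k] x) (f^[k] y) ≤ L ^ j * dist (f^[N * q] x) (f^[N * q] y) := h1
    _ ≤ L ^ N * (c * (1 / 2 ^ q + 1 / 2 ^ (n - q))) :=
        mul_le_mul hLj h2 dist_nonneg hL0
    _ ≤ L ^ N * (c * (2 * θ ^ k + 2 * θ ^ (m - k))) := by gcongr
    _ = 2 * L ^ N * c * (θ ^ k + θ ^ (m - k)) := by ring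

end Abstract

end Pool.Agent.Lib.MP610fe3
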