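import Pool.Agent.Lib.MP_610fe3_an.Nested

/-!
# Expansive homeomorphisms with shadowing: chains, closing, asymptotic points
-/

open Set Filter Function
open scoped Topology

namespace Pool.Agent.Lib.MP610fe3

section Chains

variable {X : Type*} [MetricSpace X] {f : X → X} {ε ε' : ℝ} {x y z : X}

theorem Chain.trans (h1 : Chain f ε x y) (h2 : Chain f ε y z) : Chain f ε x z := by
  obtain ⟨m, c, hm, h0, hl, hc⟩ := h1
  obtain ⟨m', c', hm', h0', hl', hc'⟩ := h2
  refine ⟨m + m', fun i => if i < m then c i else c' (i - m), by omega, by simp [hm, h0],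
    by simp [hl'], fun i hi => ?_⟩
  rcases lt_trichotomy (i + 1) m with h | h | h
  · have : i < m := by omega
    simp only [this, h, if_true]
    exact hc i (by omega)
  · have h1 : i < m := by omega
    have h2 : ¬ (i + 1 < m) := by omega
    simp only [h1, h2, if_true, if_false]
    have h3 : i + 1 - m = 0 := by omega
    rw [h3, h0', ← hl, ← h]
    exact hc i (by omega)
  · have h1 : ¬ (i < m) := by omega
    have h2 : ¬ (i + 1 < m) := by omega
    simp only [h1, h2, if_false]
    have h3 : i + 1 - m = i - m + 1 := by omega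
    rw [h3]
    exact hc' (i - m) (by omega)

theorem Chain.mono (h : Chain f ε x y) (hε : ε ≤ ε') : Chain f ε' x y := by
  obtain ⟨m, c, hm, h0, hl, hc⟩ := h
  exact ⟨m, c, hm, h0, hl, fun i hi => (hc i hi).trans_le hε⟩

theorem chain_iterate (hε : 0 < ε) (x : X) {m : ℕ} (hm : 0 < m) : Chain f ε x (f^[m] x) :=
  ⟨m, fun i => f^[i] x, hm, rfl, rfl, fun i _ => by
    rw [← iterate_succ_apply' f i x, dist_self]; exact hε⟩

theorem Chain.last (h : Chain f ε x y) (hd : dist y z < ε') : Chain f (ε + ε') x z := by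
  obtain ⟨m, c, hm, h0, hl, hc⟩ := h
  have hε' : 0 < ε' := lt_of_le_of_lt dist_nonneg hd
  refine ⟨m, fun i => if i = m then z else c i, hm, ?_, by simp, fun i hi => ?_⟩
  · have : ¬ (0 = m) := by omega
    simp [this, h0]
  · have h1 : ¬ (i = m) := by omega
    simp only [h1, if_false]
    by_cases h2 : i + 1 = m
    · simp only [h2, if_true]
      have h3 := hc i hi
      rw [h2, hl] at h3
      calc dist (f (c i)) z ≤ dist (f (c i)) y + dist y z := dist_triangle _ _ _
        _ < ε + ε' := add_lt_add h3 hd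
    · simp only [h2, if_false]
      have h3 := hc i hi
      linarith

theorem Chain.first (h : Chain f ε x y) (hd : dist (f z) (f x) < ε') :
    Chain f (ε + ε') z y := by
  obtain ⟨m, c, hm, h0, hl, hc⟩ := h
  have hε' : 0 < ε' := lt_of_le_of_lt dist_nonneg hd
  refine ⟨m, fun i => if i = 0 then z else c i, hm, by simp, ?_, fun i hi => ?_⟩
  · have : ¬ (m = 0) := by omega
    simp [this, hl]
  · have h1 : ¬ (i + 1 = 0) := by omega
    simp only [h1, if_false]
    by_cases h2 : i = 0
    · subst h2
      simp only [if_true]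
      have h3 := hc 0 hi
      rw [h0] at h3
      calc dist (f z) (c (0 + 1)) ≤ dist (f z) (f x) + dist (f x) (c (0 + 1)) :=
            dist_triangle _ _ _
        _ < ε' + ε := add_lt_add hd h3
        _ = ε + ε' := add_comm _ _
    · simp only [h2, if_false]
      have h3 := hc i hi
      linarith

/-- Chains of arbitrarily small jumps. -/
def Reach (f : X → X) (x y : X) : Prop := ∀ ε : ℝ, 0 < ε → Chain f ε x y

theorem Reach.trans (h1 : Reach f x y) (h2 : Reach f y z) : Reach f x z :=
  fun ε hε => (h1 ε hε).trans (h2 ε hε)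

theorem reach_iterate (f : X → X) (x : X) {m : ℕ} (hm : 0 < m) : Reach f x (f^[m] x) :=
  fun _ hε => chain_iterate hε x hm

theorem reach_of_approx (hf : Continuous f)
    (h : ∀ r : ℝ, 0 < r → ∃ x' y', dist x' x < r ∧ dist y' y < r ∧ Reach f x' y') :
    Reach f x y := by
  intro ε hε
  obtain ⟨r₁, hr₁, h₁⟩ := Metric.continuous_iff.1 hf x (ε / 3) (by positivity)
  obtain ⟨x', y', hx', hy', hR⟩ := h (min r₁ (ε / 3)) (lt_min hr₁ (by positivity))
  have h2 := (hR (ε / 3) (by positivity)).first (z := x) (ε' := ε / 3) (by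
    rw [dist_comm]; exact h₁ x' (hx'.trans_le (min_le_left _ _)))
  have h3 := h2.last (z := y) (ε' := ε / 3) (hy'.trans_le (min_le_right _ _))
  exact h3.mono (by linarith)

/-- A periodic point reaches all points of its orbit and conversely. -/
theorem reach_periodic {p : X} (hp : p ∈ periodicPts f) (k : ℕ) : Reach f (f^[k] p) p := by
  obtain ⟨m, hm, hpm⟩ := hp
  have h1 : f^[m * (k + 1) - k] (f^[k] p) = p := by
    rw [← iterate_add_apply]
    have h2 : m * (k + 1) - k + k = m * (k + 1) := by
      apply Nat.sub_add_cancel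
      nlinarith
    rw [h2]
    exact (hpm.const_mul (k + 1) |> fun h => by rwa [mul_comm] at h)
  have h3 : 0 < m * (k + 1) - k := by
    have : k < m * (k + 1) := by nlinarith
    omega
  have := reach_iterate f (f^[k] p) h3
  rwa [h1] at this

end Chains

section Exp

variable {X : Type*} [MetricSpace X] [CompactSpace X] {f : X ≃ₜ X}

/-- `c` is an expansivity constant. -/
def ExpConst (f : X ≃ₜ X) (c : ℝ) : Prop :=
  ∀ x y : X, (∀ k : ℕ, dist (f^[k] x) (f^[k] y) ≤ c) →
    (∀ k : ℕ, dist (f.symm^[k] x) (f.symm^[k] y) ≤ c) → x = y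

theorem ExpConst.symm {c : ℝ} (h : ExpConst f c) : ExpConst f.symm c := by
  intro x y h1 h2
  exact h x y (by simpa using h2) h1

theorem symm_iterate_iterate (f : X ≃ₜ X) {i k : ℕ} (hik : i ≤ k) (x : X) :
    f.symm^[i] (f^[k] x) = f^[k - i] x := by
  have h3 : Function.LeftInverse (f.symm^[i]) (f^[i]) :=
    Function.LeftInverse.iterate f.symm_apply_apply i
  have : f^[k] x = f^[i] (f^[k - i] x) := by
    rw [← iterate_add_apply]; congr 1; congr 1; omega
  rw [this, h3]

/-- Points which stay `c`-close in the future are asymptotic. -/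
theorem ExpConst.fwdAsymp {c : ℝ} (hc : ExpConst f c) {x y : X}
    (h : ∀ k, dist (f^[k] x) (f^[k] y) ≤ c) : FwdAsymp f x y := by
  by_contra hnot
  rw [FwdAsymp, Metric.tendsto_atTop] at hnot
  push Not at hnot
  obtain ⟨ε, hε, hfreq⟩ := hnot
  have hfreq' : ∀ N, ∃ n > N, ε ≤ dist (f^[n] x) (f^[n] y) := by
    intro N
    obtain ⟨n, hn, hd⟩ := hfreq (N + 1)
    rw [Real.dist_0_eq_abs, abs_of_nonneg dist_nonneg] at hd
    exact ⟨n, by omega, hd⟩
  obtain ⟨φ, hφ, hφd⟩ := Nat.exists_strictMono_subsequence hfreq'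
  obtain ⟨⟨a, b⟩, -, ψ, hψ, hlim⟩ := (isCompact_univ (X := X × X)).tendsto_subseq
    (x := fun k => (f^[φ k] x, f^[φ k] y)) (fun _ => mem_univ _)
  have hla : Tendsto (fun k => f^[φ (ψ k)] x) atTop (𝓝 a) := by
    have := (continuous_fst.tendsto (a, b)).comp hlim
    exact this
  have hlb : Tendsto (fun k => f^[φ (ψ k)] y) atTop (𝓝 b) := by
    have := (continuous_snd.tendsto (a, b)).comp hlim
    exact this
  have hab : a = b := by
    apply hc
    · intro i
      have h1 := (((f.continuous.iterate i).tendsto a).comp hla).dist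
        (((f.continuous.iterate i).tendsto b).comp hlb)
      refine le_of_tendsto' h1 (fun k => ?_)
      simp only [Function.comp_apply]
      rw [← iterate_add_apply, ← iterate_add_apply]
      exact h _
    · intro i
      have h1 := (((f.symm.continuous.iterate i).tendsto a).comp hla).dist
        (((f.symm.continuous.iterate i).tendsto b).comp hlb)
      refine le_of_tendsto h1 ?_
      filter_upwards [eventually_ge_atTop i] with k hk
      simp only [Function.comp_apply]
      have h2 : i ≤ φ (ψ k) := hk.trans ((hψ.id_le k).trans (hφ.id_le _))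
      rw [symm_iterate_iterate f h2, symm_iterate_iterate f h2]
      exact h _
  have h2 : ε ≤ dist a b := ge_of_tendsto' (hla.dist hlb) (fun k => hφd (ψ k))
  rw [hab, dist_self] at h2
  linarith

theorem iterate_of_orbit {f : X ≃ₜ X} {y : ℤ → X} (hy : ∀ k, f (y k) = y (k + 1)) (k : ℤ)
    (n : ℕ) : f^[n] (y k) = y (k + n) := by
  induction n with
  | zero => simp
  | succ n ih =>
    rw [iterate_succ_apply', ih, hy]
    congr 1
    push_cast
    ring

theorem symm_iterate_of_orbit {f : X ≃ₜ X} {y : ℤ → X} (hy : ∀ k, f (y k) = y (k + 1)) (k : ℤ)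
    (n : ℕ) : f.symm^[n] (y k) = y (k - n) := by
  have h1 := iterate_of_orbit hy (k - n) n
  rw [sub_add_cancel] at h1
  have h3 : Function.LeftInverse (f.symm^[n]) (f^[n]) :=
    Function.LeftInverse.iterate f.symm_apply_apply n
  rw [← h1, h3]

/-- The closing lemma. -/
theorem closing {c : ℝ} (hc0 : 0 < c) (hc : ExpConst f c) (hsh : Shadowing f) {ε : ℝ}
    (hε : 0 < ε) : ∃ δ : ℝ, 0 < δ ∧ ∀ (m : ℕ) (x : ℕ → X), 0 < m → x m = x 0 →
      (∀ i < m, dist (f (x i)) (x (i + 1)) < δ) →
      ∃ p, f^[m] p = p ∧ ∀ i < m, dist (f^[i] p) (x i) < ε := by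
  obtain ⟨δ, hδ, hs⟩ := hsh (min ε (c / 2)) (lt_min hε (by positivity))
  refine ⟨δ, hδ, fun m x hm hx0 hx => ?_⟩
  have hmZ : (0 : ℤ) < m := by exact_mod_cast hm
  set X' : ℤ → X := fun k => x (k % m).toNat with hX'
  have hnat : ∀ k : ℤ, ((k % m).toNat : ℤ) = k % m := fun k =>
    Int.toNat_of_nonneg (Int.emod_nonneg k hmZ.ne')
  have hlt : ∀ k : ℤ, (k % m).toNat < m := by
    intro k
    have h1 := Int.emod_lt_of_pos k hmZ
    have h2 := hnat k
    omega
  have hX's : ∀ k, dist (f (X' k)) (X' (k + 1)) < δ := by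
    intro k
    have h1 := hx _ (hlt k)
    have h2 : X' (k + 1) = x ((k % m).toNat + 1) := by
      have h3 : (k + 1) % m = (((k % m).toNat : ℤ) + 1) % m := by
        rw [hnat, Int.emod_add_emod]
      rcases Nat.lt_or_ge ((k % m).toNat + 1) m with h4 | h4
      · have h5 : (((k % m).toNat : ℤ) + 1) % m = ((k % m).toNat : ℤ) + 1 :=
          Int.emod_eq_of_lt (by positivity) (by exact_mod_cast h4)
        simp only [hX']
        rw [h3, h5]
        congr 1
      · have h6 : (k % m).toNat + 1 = m := by have := hlt k; omega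
        have h5 : (((k % m).toNat : ℤ) + 1) % m = 0 := by
          have : (((k % m).toNat : ℤ) + 1) = m := by exact_mod_cast h6
          rw [this]; exact Int.emod_self
        simp only [hX']
        rw [h3, h5, h6, hx0]
        rfl
    rw [h2]
    exact h1
  obtain ⟨y, hy, hyd⟩ := hs X' hX's
  have hper : ∀ k, X' (k + m) = X' k := by
    intro k; simp only [hX', Int.add_emod_right]
  have hclose : ∀ k, dist (y k) (y (k + m)) ≤ c := by
    intro k
    have h1 := (hyd k).trans_le (min_le_right _ _)
    have h2 := (hyd (k + m)).trans_le (min_le_right _ _)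
    rw [hper] at h2
    have h3 := dist_triangle_right (y k) (y (k + m)) (X' k)
    linarith
  have heq : y 0 = y (0 + m) := by
    apply hc
    · intro k
      rw [iterate_of_orbit hy, iterate_of_orbit hy]
      have := hclose (0 + k)
      rwa [show (0 : ℤ) + k + m = 0 + m + k by ring] at this
    · intro k
      rw [symm_iterate_of_orbit hy, symm_iterate_of_orbit hy]
      have := hclose (0 - k)
      rwa [show (0 : ℤ) - k + m = 0 + m - k by ring] at this
  refine ⟨y 0, ?_, fun i hi => ?_⟩
  · rw [iterate_of_orbit hy, ← heq]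
  · rw [iterate_of_orbit hy]
    have h1 := (hyd (0 + i)).trans_le (min_le_left _ _)
    have h2 : X' (0 + i) = x i := by
      simp only [hX', zero_add]
      congr 1
      have : (i : ℤ) % m = i := Int.emod_eq_of_lt (by positivity) (by exact_mod_cast hi)
      rw [this]; rfl
    rwa [h2] at h1

/-- Chain recurrent points are limits of periodic points. -/
theorem mem_closure_of_reach {c : ℝ} (hc0 : 0 < c) (hc : ExpConst f c) (hsh : Shadowing f)
    {x : X} (h : Reach f x x) : x ∈ closure (periodicPts f) := by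
  rw [Metric.mem_closure_iff]
  intro ε hε
  obtain ⟨δ, hδ, hcl⟩ := closing hc0 hc hsh hε
  obtain ⟨m, s, hm, h0, hl, hs⟩ := h δ hδ
  obtain ⟨p, hp, hd⟩ := hcl m s hm (by rw [h0, hl]) hs
  refine ⟨p, ⟨m, hm, hp⟩, ?_⟩
  have := hd 0 hm
  rw [iterate_zero, id, h0, dist_comm] at this
  exact this

/-- The bracket: a point asymptotic to `p` in the past and to `q` in the future. -/
theorem bracket {c : ℝ} (hc0 : 0 < c) (hc : ExpConst f c) (hsh : Shadowing f) :
    ∃ δ : ℝ, 0 < δ ∧ ∀ p q, dist p q < δ → ∃ z, FwdAsymp f.symm z p ∧ FwdAsymp f z q := by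
  obtain ⟨δ, hδ, hs⟩ := hsh (c / 2) (by positivity)
  refine ⟨min δ (c / 2), lt_min hδ (by positivity), fun p q hpq => ?_⟩
  have hpq1 := hpq.trans_le (min_le_left _ _)
  have hpq2 := hpq.trans_le (min_le_right _ _)
  obtain ⟨y, hy, hyd⟩ := hs (fun k => if k < 0 then orb f p k else orb f q k) (fun k => by
    rcases lt_trichotomy (k + 1) 0 with h | h | h
    · have h1 : k < 0 := by omega
      simp only [h1, h, if_true]
      rw [orb_succ, dist_self]; exact hδ
    · have h1 : k < 0 := by omega
      have h2 : ¬ (k + 1 < 0) := by omega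
      simp only [h1, h2, if_true, if_false]
      rw [orb_succ, h, orb_zero, orb_zero]; exact hpq1
    · have h1 : ¬ (k < 0) := by omega
      have h2 : ¬ (k + 1 < 0) := by omega
      simp only [h1, h2, if_false]
      rw [orb_succ, dist_self]; exact hδ)
  refine ⟨y 0, ?_, ?_⟩
  · apply hc.symm.fwdAsymp
    intro k
    rw [symm_iterate_of_orbit hy, zero_sub, ← orb_neg]
    rcases Nat.eq_zero_or_pos k with rfl | hk
    · have h1 := hyd 0
      simp only [lt_self_iff_false, if_false] at h1
      rw [orb_zero] at h1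
      simp only [Nat.cast_zero, neg_zero]
      rw [orb_zero]
      have h2 := dist_triangle_right (y 0) p q
      linarith
    · have h1 := hyd (-k)
      have h2 : (-(k : ℤ)) < 0 := by omega
      simp only [h2, if_true] at h1
      linarith
  · apply hc.fwdAsymp
    intro k
    rw [iterate_of_orbit hy, zero_add, ← orb_nat]
    have h1 := hyd k
    have h2 : ¬ ((k : ℤ) < 0) := by omega
    simp only [h2, if_false] at h1
    linarith

end Exp

end Pool.Agent.Lib.MP610fe3
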