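import Pool.Agent.Lib.MP_610fe3_an.Nested

/-!
# Shadowing
-/

open Set Filter Function
open scoped Topology

namespace Pool.Agent.Lib.MP610fe3

section Abstract

variable {M W : Type*} [MetricSpace M] [CompactSpace M] [NormedAddCommGroup W] [NormedSpace ℝ W]
  {E : Emb M W} {f : M ≃ₜ M}

/-- One Newton step: the jumps are halved. -/
theorem Split.newton {F : M ≃ₜ M} (t : Split E F) (hk : t.Strong (1 / 8))
    (hunif : ∀ η : ℝ, 0 < η → ∃ r : ℝ, 0 < r ∧ ∀ x z, dist z x < r →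
      ∀ w, ‖t.U z w - t.U x w‖ ≤ η * ‖w‖) :
    ∃ (K δ₀ : ℝ), 1 ≤ K ∧ 0 < δ₀ ∧ ∀ δ, 0 < δ → δ ≤ δ₀ → ∀ x : ℤ → M,
      (∀ i, dist (F (x i)) (x (i + 1)) ≤ δ) →
      ∃ x' : ℤ → M, (∀ i, dist (x' i) (x i) ≤ 3 * K * δ) ∧
        ∀ i, dist (F (x' i)) (x' (i + 1)) ≤ δ / 2 := by
  obtain ⟨K, hK1, hK⟩ := t.exists_bdd
  obtain ⟨KD, hKD1, hKD⟩ := exists_norm_bound t.hD.cont
  have hC : 0 < 2 + 2 * K * KD + 5 * K := by positivity
  set η : ℝ := min (1 / 2) (1 / (4 * (2 + 2 * K * KD + 5 * K))) with hηdef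
  have hη : 0 < η := lt_min (by norm_num) (by positivity)
  have hη1 : η ≤ 1 / 2 := min_le_left _ _
  have hη2 : η * (2 + 2 * K * KD + 5 * K) ≤ 1 / 4 := by
    have h1 : η ≤ 1 / (4 * (2 + 2 * K * KD + 5 * K)) := min_le_right _ _
    calc η * (2 + 2 * K * KD + 5 * K)
        ≤ 1 / (4 * (2 + 2 * K * KD + 5 * K)) * (2 + 2 * K * KD + 5 * K) :=
          mul_le_mul_of_nonneg_right h1 hC.le
      _ = 1 / 4 := by field_simp
  obtain ⟨r₁, hr₁, h₁⟩ := t.hD.approx η hη
  obtain ⟨r₂, hr₂, h₂⟩ := E.tangent η hη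
  obtain ⟨r₃, hr₃, h₃⟩ := E.exists_pt η hη
  obtain ⟨r₄, hr₄, h₄⟩ := hunif η hη
  set δ₀ : ℝ := min (r₁ / (4 * K)) (min (r₂ / 2) (min (r₃ / (3 * K)) (r₄ / 2))) with hδ₀
  have hδ₀pos : 0 < δ₀ := by
    refine lt_min (by positivity) (lt_min (by positivity) (lt_min (by positivity) (by positivity)))
  have hb1 : δ₀ ≤ r₁ / (4 * K) := min_le_left _ _
  have hb2 : δ₀ ≤ r₂ / 2 := (min_le_right _ _).trans (min_le_left _ _)
  have hb3 : δ₀ ≤ r₃ / (3 * K) :=
    (min_le_right _ _).trans ((min_le_right _ _).trans (min_le_left _ _))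
  have hb4 : δ₀ ≤ r₄ / 2 :=
    (min_le_right _ _).trans ((min_le_right _ _).trans (min_le_right _ _))
  refine ⟨K, δ₀, hK1, hδ₀pos, fun δ hδ hδδ₀ x hx' => ?_⟩
  have hKpos : 0 < K := by linarith
  have c1 : 4 * K * δ ≤ r₁ := by
    have := hδδ₀.trans hb1
    rw [le_div_iff₀ (by positivity)] at this; linarith
  have c2 : 2 * δ ≤ r₂ := by linarith [hδδ₀.trans hb2]
  have c3 : 3 * K * δ ≤ r₃ := by
    have := hδδ₀.trans hb3
    rw [le_div_iff₀ (by positivity)] at this; linarith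
  have c4 : 2 * δ ≤ r₄ := by linarith [hδδ₀.trans hb4]
  -- jumps: `j i` is the jump arriving at `x i`
  set j : ℤ → W := fun i => E.e (F (x (i - 1))) - E.e (x i) with hj
  have hjn : ∀ i, ‖j i‖ ≤ δ := by
    intro i
    have := hx' (i - 1)
    rw [sub_add_cancel, E.dist_eq] at this
    exact this
  have hj1 : ∀ i, j (i + 1) = E.e (F (x i)) - E.e (x (i + 1)) := by
    intro i; simp only [hj, add_sub_cancel_right]
  set a : ℤ → W := fun i => t.S (x i) (j i) with ha
  set b : ℤ → W := fun i => t.Di (F (x i)) (t.U (F (x i)) (j (i + 1))) with hb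
  set w : ℤ → W := fun i => a i - b i with hw
  have han : ∀ i, ‖a i‖ ≤ K * δ := by
    intro i
    exact ((t.S (x i)).le_of_opNorm_le (hK _).1 _).trans
      (mul_le_mul_of_nonneg_left (hjn i) hKpos.le)
  have hbn : ∀ i, ‖b i‖ ≤ 1 / 8 * δ := by
    intro i
    exact ((hk (F (x i)) (j (i + 1))).2).trans
      (mul_le_mul_of_nonneg_left (hjn _) (by norm_num))
  have hwn : ∀ i, ‖w i‖ ≤ 2 * K * δ := by
    intro i
    calc ‖w i‖ ≤ ‖a i‖ + ‖b i‖ := norm_sub_le _ _
      _ ≤ K * δ + 1 / 8 * δ := add_le_add (han i) (hbn i)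
      _ ≤ 2 * K * δ := by nlinarith
  have hPw : ∀ i, E.P (x i) (w i) = w i := by
    intro i
    have p1 : E.P (x i) (a i) = a i := by
      have := congrArg (fun L => L (j i)) (t.PS (x i))
      simpa using this
    have p2 : E.P (x i) (b i) = b i := by
      have := congrArg (fun L => L (t.U (F (x i)) (j (i + 1)))) (t.hDi.left (F (x i)))
      rw [F.symm_apply_apply] at this
      simpa using this
    simp only [hw, map_sub, p1, p2]
  have hex : ∀ i, ∃ z, ‖E.e z - E.e (x i) - w i‖ ≤ η * ‖w i‖ := by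
    intro i
    obtain ⟨z, hz⟩ := h₃ (x i) (w i) (by
      refine lt_of_le_of_lt (hwn i) (lt_of_lt_of_le ?_ c3)
      nlinarith)
    rw [hPw] at hz
    exact ⟨z, hz⟩
  choose x' hxx using hex
  have hq : ∀ i, ‖E.e (x' i) - E.e (x i) - w i‖ ≤ 2 * K * η * δ := by
    intro i
    refine (hxx i).trans ?_
    calc η * ‖w i‖ ≤ η * (2 * K * δ) := mul_le_mul_of_nonneg_left (hwn i) hη.le
      _ = 2 * K * η * δ := by ring
  have hd : ∀ i, dist (x' i) (x i) ≤ 3 * K * δ := by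
    intro i
    rw [E.dist_eq]
    calc ‖E.e (x' i) - E.e (x i)‖ = ‖(E.e (x' i) - E.e (x i) - w i) + w i‖ := by
          congr 1; abel
      _ ≤ 2 * K * η * δ + 2 * K * δ := (norm_add_le _ _).trans (add_le_add (hq i) (hwn i))
      _ ≤ 3 * K * δ := by
          have : 2 * K * η * δ ≤ 2 * K * (1 / 2) * δ := by gcongr
          linarith
  refine ⟨x', hd, fun i => ?_⟩
  -- the new jump
  have hdr : dist (x' i) (x i) < r₁ :=
    lt_of_le_of_lt (hd i) (lt_of_lt_of_le (by nlinarith) c1)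
  have hR := h₁ (x i) (x' i) hdr
  set R := E.e (F (x' i)) - E.e (F (x i)) - t.D (x i) (E.e (x' i) - E.e (x i)) with hRdef
  have hRn : ‖R‖ ≤ 3 * K * η * δ := by
    refine hR.trans ?_
    calc η * dist (x' i) (x i) ≤ η * (3 * K * δ) := mul_le_mul_of_nonneg_left (hd i) hη.le
      _ = 3 * K * η * δ := by ring
  set q : ℤ → W := fun i => E.e (x' i) - E.e (x i) - w i with hqdef
  have hexp : E.e (x' i) - E.e (x i) = a i - b i + q i := by
    simp only [hqdef, hw]; abel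
  have hexp1 : E.e (x' (i + 1)) = E.e (x (i + 1)) + (a (i + 1) - b (i + 1) + q (i + 1)) := by
    simp only [hqdef, hw]; abel
  have hDb : t.D (x i) (b i) = t.U (F (x i)) (j (i + 1)) := by
    have p1 := congrArg (fun L => L (t.U (F (x i)) (j (i + 1)))) (t.inv2 (F (x i)))
    have p2 := congrArg (fun L => L (j (i + 1))) (t.PU (F (x i)))
    rw [F.symm_apply_apply] at p1
    simp only [ContinuousLinearMap.comp_apply] at p1 p2
    rw [p2] at p1
    exact p1
  have hmain : E.e (F (x' i)) - E.e (x' (i + 1))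
      = (j (i + 1) - E.P (x (i + 1)) (j (i + 1)))
        + (t.U (x (i + 1)) (j (i + 1)) - t.U (F (x i)) (j (i + 1)))
        + t.D (x i) (a i) + b (i + 1) + t.D (x i) (q i) + R - q (i + 1) := by
    have p1 : E.P (x (i + 1)) (j (i + 1)) = a (i + 1) + t.U (x (i + 1)) (j (i + 1)) := by
      have := congrArg (fun L => L (j (i + 1))) (t.add (x (i + 1)))
      simpa using this.symm
    have p2 : E.e (F (x' i)) = E.e (F (x i)) + t.D (x i) (E.e (x' i) - E.e (x i)) + R := by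
      rw [hRdef]; abel
    rw [p1, p2, hexp1, hexp, map_add, map_sub, hDb, ← sub_eq_zero]
    have p3 : E.e (F (x i)) = j (i + 1) + E.e (x (i + 1)) := by rw [hj1]; abel
    rw [p3]
    abel
  have b1 : ‖j (i + 1) - E.P (x (i + 1)) (j (i + 1))‖ ≤ η * δ := by
    have := h₂ (x (i + 1)) (F (x i)) (lt_of_le_of_lt (hx' i) (by linarith))
    rw [← hj1] at this
    exact this.trans (mul_le_mul_of_nonneg_left (hx' i) hη.le)
  have b2 : ‖t.U (x (i + 1)) (j (i + 1)) - t.U (F (x i)) (j (i + 1))‖ ≤ η * δ := by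
    have := h₄ (x (i + 1)) (F (x i)) (lt_of_le_of_lt (hx' i) (by linarith)) (j (i + 1))
    rw [norm_sub_rev] at this
    exact this.trans (mul_le_mul_of_nonneg_left (hjn _) hη.le)
  have b3 : ‖t.D (x i) (a i)‖ ≤ 1 / 8 * δ :=
    ((hk (x i) (j i)).1).trans (mul_le_mul_of_nonneg_left (hjn i) (by norm_num))
  have b4 : ‖b (i + 1)‖ ≤ 1 / 8 * δ := hbn _
  have b5 : ‖t.D (x i) (q i)‖ ≤ KD * (2 * K * η * δ) :=
    ((t.D (x i)).le_of_opNorm_le (hKD _) _).trans
      (mul_le_mul_of_nonneg_left (hq i) (by linarith))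
  have b6 : ‖q (i + 1)‖ ≤ 2 * K * η * δ := hq _
  rw [E.dist_eq, hmain]
  calc ‖(j (i + 1) - E.P (x (i + 1)) (j (i + 1)))
        + (t.U (x (i + 1)) (j (i + 1)) - t.U (F (x i)) (j (i + 1)))
        + t.D (x i) (a i) + b (i + 1) + t.D (x i) (q i) + R - q (i + 1)‖
      ≤ η * δ + η * δ + 1 / 8 * δ + 1 / 8 * δ + KD * (2 * K * η * δ) + 3 * K * η * δ
        + 2 * K * η * δ := by
        refine (norm_sub_le _ _).trans (add_le_add ?_ b6)
        refine (norm_add_le _ _).trans (add_le_add ?_ hRn)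
        refine (norm_add_le _ _).trans (add_le_add ?_ b5)
        refine (norm_add_le _ _).trans (add_le_add ?_ b4)
        refine (norm_add_le _ _).trans (add_le_add ?_ b3)
        exact (norm_add_le _ _).trans (add_le_add b1 b2)
    _ = (1 / 4 + η * (2 + 2 * K * KD + 5 * K)) * δ := by ring
    _ ≤ (1 / 4 + 1 / 4) * δ := by gcongr
    _ = δ / 2 := by ring

theorem Split.exists_newton (s : Split E f) (hs : s.Hyperbolic) :
    ∃ (k : ℕ) (K δ₀ : ℝ), 1 ≤ K ∧ 0 < δ₀ ∧ ∀ δ, 0 < δ → δ ≤ δ₀ → ∀ x : ℤ → M,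
      (∀ i, dist (f^[k + 1] (x i)) (x (i + 1)) ≤ δ) →
      ∃ x' : ℤ → M, (∀ i, dist (x' i) (x i) ≤ 3 * K * δ) ∧
        ∀ i, dist (f^[k + 1] (x' i)) (x' (i + 1)) ≤ δ / 2 := by
  obtain ⟨k, hk⟩ := s.exists_strong hs (show (0 : ℝ) < 1 / 8 by norm_num)
  obtain ⟨K, δ₀, h1, h2, h3⟩ := (s.pow k).newton hk (fun η hη => s.exists_unifU hs hη)
  refine ⟨k, K, δ₀, h1, h2, fun δ hδ hδδ₀ x hx => ?_⟩
  have h4 := h3 δ hδ hδδ₀ x (fun i => by rw [hpow_apply]; exact hx i)
  simpa only [hpow_apply] using h4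

/-- Shadowing for an iterate. -/
theorem Split.shadow_aux (s : Split E f) (hs : s.Hyperbolic) :
    ∃ (k : ℕ) (K δ₀ : ℝ), 1 ≤ K ∧ 0 < δ₀ ∧ ∀ δ, 0 < δ → δ ≤ δ₀ → ∀ x : ℤ → M,
      (∀ i, dist (f^[k + 1] (x i)) (x (i + 1)) ≤ δ) →
      ∃ y : ℤ → M, (∀ i, f^[k + 1] (y i) = y (i + 1)) ∧
        ∀ i, dist (y i) (x i) ≤ 6 * K * δ := by
  obtain ⟨k, K, δ₀, hK1, hδ₀, hstep⟩ := s.exists_newton hs
  refine ⟨k, K, δ₀, hK1, hδ₀, fun δ hδ hδδ₀ x hx => ?_⟩
  choose! step hstep1 hstep2 using hstep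
  set X : ℕ → ℤ → M := fun m => Nat.rec x (fun m y => step (δ / 2 ^ m) y) m with hX
  have hX0 : X 0 = x := rfl
  have hXs : ∀ m, X (m + 1) = step (δ / 2 ^ m) (X m) := fun m => rfl
  have hpos : ∀ m : ℕ, 0 < δ / 2 ^ m := fun m => by positivity
  have hle : ∀ m : ℕ, δ / 2 ^ m ≤ δ₀ := fun m =>
    (div_le_self hδ.le (one_le_pow₀ (by norm_num))).trans hδδ₀
  have hjump : ∀ m i, dist (f^[k + 1] (X m i)) (X m (i + 1)) ≤ δ / 2 ^ m := by
    intro m
    induction m with
    | zero => intro i; simpa [hX0] using hx i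
    | succ m ih =>
      intro i
      rw [hXs]
      have := hstep2 (δ / 2 ^ m) (hpos m) (hle m) (X m) ih i
      refine this.trans (le_of_eq ?_)
      rw [pow_succ]; field_simp
  have hdist : ∀ m i, dist (X m i) (X (m + 1) i) ≤ 3 * K * δ / 2 ^ m := by
    intro m i
    rw [hXs, dist_comm]
    have := hstep1 (δ / 2 ^ m) (hpos m) (hle m) (X m) (hjump m) i
    refine this.trans (le_of_eq ?_)
    ring
  have hc : ∀ i, CauchySeq (fun m => X m i) := fun i =>
    cauchySeq_of_le_geometric_two (C := 6 * K * δ) (fun m => by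
      refine (hdist m i).trans (le_of_eq ?_)
      ring)
  choose y hy using fun i => cauchySeq_tendsto_of_complete (hc i)
  refine ⟨y, fun i => ?_, fun i => ?_⟩
  · have h1 : Tendsto (fun m => f^[k + 1] (X m i)) atTop (𝓝 (f^[k + 1] (y i))) :=
      ((f.continuous.iterate (k + 1)).tendsto _).comp (hy i)
    have h2 : Tendsto (fun m => dist (f^[k + 1] (X m i)) (X m (i + 1))) atTop
        (𝓝 (dist (f^[k + 1] (y i)) (y (i + 1)))) := h1.dist (hy (i + 1))
    have h3 : Tendsto (fun m : ℕ => δ / 2 ^ m) atTop (𝓝 0) := by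
      have h5 := (tendsto_pow_atTop_nhds_zero_of_lt_one (r := (1 / 2 : ℝ)) (by norm_num)
        (by norm_num)).const_mul δ
      rw [mul_zero] at h5
      refine h5.congr (fun m => ?_)
      rw [one_div, inv_pow, div_eq_mul_inv]
    have h4 := le_of_tendsto_of_tendsto' h2 h3 (fun m => hjump m i)
    exact dist_le_zero.1 h4
  · have := dist_le_of_le_geometric_two_of_tendsto₀ (C := 6 * K * δ) (fun m => by
      refine (hdist m i).trans (le_of_eq ?_)
      ring) (hy i)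
    rw [dist_comm]
    exact this

/-- A pseudo-orbit of `f` with small jumps stays close to the iterates. -/
theorem exists_pseudo {X : Type*} [MetricSpace X] [CompactSpace X] {f : X → X}
    (hf : Continuous f) (N : ℕ) {ε : ℝ} (hε : 0 < ε) :
    ∃ δ : ℝ, 0 < δ ∧ ∀ x : ℤ → X, (∀ i, dist (f (x i)) (x (i + 1)) < δ) →
      ∀ i, ∀ j : ℕ, j ≤ N → dist (f^[j] (x i)) (x (i + j)) < ε := by
  induction N generalizing ε with
  | zero =>
    refine ⟨1, one_pos, fun x _ i j hj => ?_⟩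
    obtain rfl : j = 0 := by omega
    simpa using hε
  | succ N ih =>
    obtain ⟨δ₁, hδ₁, h₁⟩ := exists_unif_iter hf 1 (show 0 < ε / 2 by positivity)
    obtain ⟨δ₂, hδ₂, h₂⟩ := ih (show 0 < min δ₁ ε from lt_min hδ₁ hε)
    refine ⟨min δ₂ (ε / 2), lt_min hδ₂ (by positivity), fun x hx i j hj => ?_⟩
    have hx2 : ∀ i, dist (f (x i)) (x (i + 1)) < δ₂ := fun i => (hx i).trans_le (min_le_left _ _)
    rcases Nat.lt_or_ge j (N + 1) with hlt | hge
    · exact (h₂ x hx2 i j (by omega)).trans_le (min_le_right _ _)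
    · obtain rfl : j = N + 1 := by omega
      have a := (h₂ x hx2 i N le_rfl).trans_le (min_le_left _ _)
      have b := h₁ _ _ a 1 le_rfl
      rw [iterate_one] at b
      rw [iterate_succ_apply']
      have c := (hx (i + N)).trans_le (min_le_right _ _)
      have e : i + ((N + 1 : ℕ) : ℤ) = i + N + 1 := by push_cast; ring
      rw [e]
      calc dist (f (f^[N] (x i))) (x (i + N + 1))
          ≤ dist (f (f^[N] (x i))) (f (x (i + N))) + dist (f (x (i + N))) (x (i + N + 1)) :=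
            dist_triangle _ _ _
        _ < ε / 2 + ε / 2 := add_lt_add b c
        _ = ε := by ring

theorem Split.shadowing (s : Split E f) (hs : s.Hyperbolic) : Shadowing f := by
  obtain ⟨k, K, δ₀, hK1, hδ₀, hsh⟩ := s.shadow_aux hs
  intro ε hε
  obtain ⟨ε₁, hε₁, hu⟩ := exists_unif_iter f.continuous (k + 1) (show 0 < ε / 2 by positivity)
  set δ₁ : ℝ := min δ₀ (ε₁ / (12 * K)) with hδ₁
  have hδ₁pos : 0 < δ₁ := lt_min hδ₀ (by positivity)
  have hδ₁K : 6 * K * δ₁ < ε₁ := by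
    have h1 : δ₁ ≤ ε₁ / (12 * K) := min_le_right _ _
    rw [le_div_iff₀ (by positivity)] at h1
    linarith
  obtain ⟨δ, hδ, hp⟩ := exists_pseudo f.continuous (k + 1) (show 0 < min δ₁ (ε / 2) from
    lt_min hδ₁pos (by positivity))
  refine ⟨δ, hδ, fun x hx => ?_⟩
  have hp' := hp x hx
  obtain ⟨y', hy', hyd⟩ := hsh δ₁ hδ₁pos (min_le_left _ _) (fun i => x ((k + 1) * i))
    (fun i => by
      have := (hp' ((k + 1) * i) (k + 1) le_rfl).le.trans (min_le_left _ _)
      refine le_trans (le_of_eq ?_) this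
      congr 2
      push_cast
      ring)
  have hy'orb : ∀ i, y' i = orb f (y' 0) ((k + 1) * i) := by
    intro i
    have hnat : ∀ (n : ℕ), y' n = orb f (y' 0) ((k + 1) * n) := by
      intro n
      induction n with
      | zero => simp [orb_zero]
      | succ n ih =>
        have := hy' n
        rw [ih, iterate_orb] at this
        push_cast at this ⊢
        rw [← this]
        congr 1
    have hneg : ∀ (n : ℕ), y' (-n) = orb f (y' 0) ((k + 1) * (-n)) := by
      intro n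
      induction n with
      | zero => simp [orb_zero]
      | succ n ih =>
        have h1 := hy' (-((n + 1 : ℕ) : ℤ))
        rw [show (-((n + 1 : ℕ) : ℤ) + 1) = -(n : ℤ) by push_cast; ring, ih] at h1
        have h2 := iterate_orb f (y' 0) ((k + 1) * (-((n + 1 : ℕ) : ℤ))) (k + 1)
        rw [show ((k : ℤ) + 1) * (-((n + 1 : ℕ) : ℤ)) + ((k + 1 : ℕ) : ℤ)
          = (k + 1) * (-(n : ℤ)) by push_cast; ring] at h2
        exact (f.injective.iterate (k + 1)) (h1.trans h2.symm)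
    rcases Int.eq_nat_or_neg i with ⟨n, rfl | rfl⟩
    · exact hnat n
    · exact hneg n
  refine ⟨orb f (y' 0), orb_succ f (y' 0), fun i => ?_⟩
  -- write `i = (k+1) q + j`
  have hk1 : (0 : ℤ) < (k : ℤ) + 1 := by positivity
  set q := i / ((k : ℤ) + 1) with hq
  obtain ⟨j, hj⟩ := Int.eq_ofNat_of_zero_le (Int.emod_nonneg i hk1.ne')
  have hjk : j ≤ k + 1 := by
    have := Int.emod_lt_of_pos i hk1
    rw [hj] at this
    omega
  have hi : i = ((k : ℤ) + 1) * q + j := by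
    rw [← hj]; exact (Int.mul_ediv_add_emod i _).symm
  have h1 : orb f (y' 0) i = f^[j] (y' q) := by
    rw [hy'orb q, iterate_orb, ← hi]
  have h2 := hu (y' q) (x ((k + 1) * q)) (lt_of_le_of_lt (hyd q) hδ₁K) j hjk
  have h3 := (hp' ((k + 1) * q) j hjk).trans_le (min_le_right _ _)
  rw [← hi] at h3
  rw [h1]
  calc dist (f^[j] (y' q)) (x i)
      ≤ dist (f^[j] (y' q)) (f^[j] (x ((k + 1) * q))) + dist (f^[j] (x ((k + 1) * q))) (x i) :=
        dist_triangle _ _ _
    _ < ε / 2 + ε / 2 := add_lt_add h2 h3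
    _ = ε := by ring

end Abstract

end Pool.Agent.Lib.MP610fe3
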