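import Mathlib

/-!
# Anosov diffeomorphisms: definitions and the abstract set-up

Part 1 contains the definitions that are used in final statements.
Part 2 is the abstract set-up: a compact metric space `M` isometrically embedded in a normed
space `W`, with tangent projections and derivatives as endomorphisms of `W`.
Part 3 contains the topological notions.
-/

open Set Filter Function Bundle
open scoped Manifold ContDiff Topology

namespace Pool.Agent.Lib.MP610fe3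

/-! ### Part 1 -/

section Manifold

variable {n : ℕ} {M : Type*} [TopologicalSpace M] [ChartedSpace (EuclideanSpace ℝ (Fin n)) M]
  [RiemannianBundle (fun x : M => TangentSpace (𝓡 n) x)]

/-- The families of subspaces `Es`, `Eu` form a hyperbolic splitting of the tangent bundle for the
`C^1` diffeomorphism `f`: they are complementary, invariant under the derivative, `Es` is
contracted exponentially by the derivatives of the forward iterates and `Eu` by those of the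
backward iterates.  (Continuity of the splitting follows from this and is not required.) -/
structure IsAnosovSplitting (f : M ≃ₘ^1⟮𝓡 n, 𝓡 n⟯ M)
    (Es Eu : ∀ x : M, Submodule ℝ (TangentSpace (𝓡 n) x)) : Prop where
  isCompl : ∀ x, IsCompl (Es x) (Eu x)
  map_s : ∀ x, (Es x).map (mfderiv (𝓡 n) (𝓡 n) f x).toLinearMap = Es (f x)
  map_u : ∀ x, (Eu x).map (mfderiv (𝓡 n) (𝓡 n) f x).toLinearMap = Eu (f x)
  estimate : ∃ C l : ℝ, 0 < C ∧ 0 < l ∧ l < 1 ∧ ∀ (k : ℕ) (x : M),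
    (∀ v ∈ Es x, ‖mfderiv (𝓡 n) (𝓡 n) ((⇑f)^[k]) x v‖ ≤ C * l ^ k * ‖v‖) ∧
    (∀ v ∈ Eu x, ‖mfderiv (𝓡 n) (𝓡 n) ((⇑f.symm)^[k]) x v‖ ≤ C * l ^ k * ‖v‖)

/-- `f` is an Anosov diffeomorphism. -/
def IsAnosov (f : M ≃ₘ^1⟮𝓡 n, 𝓡 n⟯ M) : Prop :=
  ∃ Es Eu : ∀ x : M, Submodule ℝ (TangentSpace (𝓡 n) x), IsAnosovSplitting f Es Eu

end Manifold

/-- Topological transitivity: for all nonempty open sets `U`, `V` some forward image of `U`
meets `V`. -/
def TopTransitive {X : Type*} [TopologicalSpace X] (f : X → X) : Prop :=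
  ∀ U V : Set X, IsOpen U → IsOpen V → U.Nonempty → V.Nonempty →
    ∃ k : ℕ, (f^[k] '' U ∩ V).Nonempty

/-! ### Part 2 -/

section Abstract

variable {M W : Type*} [MetricSpace M] [NormedAddCommGroup W] [NormedSpace ℝ W]

/-- A metric space isometrically embedded in a normed space, with a continuous field `P` of
projections onto `tangent spaces`. -/
structure Emb (M W : Type*) [MetricSpace M] [NormedAddCommGroup W] [NormedSpace ℝ W] where
  e : M → W
  isom : Isometry e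
  P : M → W →L[ℝ] W
  contP : Continuous P
  idem : ∀ x, P x ∘L P x = P x
  tangent : ∀ η : ℝ, 0 < η → ∃ r : ℝ, 0 < r ∧ ∀ x z, dist z x < r →
    ‖e z - e x - P x (e z - e x)‖ ≤ η * dist z x
  exists_pt : ∀ η : ℝ, 0 < η → ∃ r : ℝ, 0 < r ∧ ∀ x w, ‖w‖ < r →
    ∃ z, ‖e z - e x - P x w‖ ≤ η * ‖w‖

/-- `D` is the derivative of the map `h`. -/
structure HasD (E : Emb M W) (h : M → M) (D : M → W →L[ℝ] W) : Prop where
  cont : Continuous D
  right : ∀ x, D x ∘L E.P x = D x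
  left : ∀ x, E.P (h x) ∘L D x = D x
  approx : ∀ η : ℝ, 0 < η → ∃ r : ℝ, 0 < r ∧ ∀ x z, dist z x < r →
    ‖E.e (h z) - E.e (h x) - D x (E.e z - E.e x)‖ ≤ η * dist z x

/-- the derivative cocycle -/
def iterD (D : M → W →L[ℝ] W) (f : M → M) : ℕ → M → W →L[ℝ] W
  | 0, _ => ContinuousLinearMap.id ℝ W
  | (k + 1), x => iterD D f k (f x) ∘L D x

/-- Derivatives of a homeomorphism and its inverse, and an invariant splitting given by the
projections `S` and `U`. -/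
structure Split (E : Emb M W) (f : M ≃ₜ M) where
  D : M → W →L[ℝ] W
  Di : M → W →L[ℝ] W
  hD : HasD E f D
  hDi : HasD E f.symm Di
  inv1 : ∀ x, Di (f x) ∘L D x = E.P x
  inv2 : ∀ x, D (f.symm x) ∘L Di x = E.P x
  S : M → W →L[ℝ] W
  U : M → W →L[ℝ] W
  add : ∀ x, S x + U x = E.P x
  SS : ∀ x, S x ∘L S x = S x
  UU : ∀ x, U x ∘L U x = U x
  SU : ∀ x, S x ∘L U x = 0
  US : ∀ x, U x ∘L S x = 0
  PS : ∀ x, E.P x ∘L S x = S x
  SP : ∀ x, S x ∘L E.P x = S x
  PU : ∀ x, E.P x ∘L U x = U x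
  UP : ∀ x, U x ∘L E.P x = U x
  DS : ∀ x, D x ∘L S x = S (f x) ∘L D x
  DU : ∀ x, D x ∘L U x = U (f x) ∘L D x
  bdd : ∃ K : ℝ, ∀ x, ‖S x‖ ≤ K ∧ ‖U x‖ ≤ K

/-- The hyperbolic estimate. -/
def Split.Hyperbolic {E : Emb M W} {f : M ≃ₜ M} (s : Split E f) : Prop :=
  ∃ C l : ℝ, 0 < C ∧ 0 < l ∧ l < 1 ∧ ∀ (k : ℕ) (x : M) (w : W),
    ‖iterD s.D f k x (s.S x w)‖ ≤ C * l ^ k * ‖w‖ ∧
    ‖iterD s.Di f.symm k x (s.U x w)‖ ≤ C * l ^ k * ‖w‖

end Abstract

/-! ### Part 3 -/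

section Top

variable {X : Type*} [MetricSpace X]

/-- Expansivity of a homeomorphism. -/
def Expansive (f : X ≃ₜ X) : Prop :=
  ∃ c : ℝ, 0 < c ∧ ∀ x y : X, (∀ k : ℕ, dist (f^[k] x) (f^[k] y) ≤ c) →
    (∀ k : ℕ, dist (f.symm^[k] x) (f.symm^[k] y) ≤ c) → x = y

/-- Shadowing property (pseudo-orbit tracing) of a homeomorphism. -/
def Shadowing (f : X ≃ₜ X) : Prop :=
  ∀ ε : ℝ, 0 < ε → ∃ δ : ℝ, 0 < δ ∧ ∀ x : ℤ → X, (∀ k, dist (f (x k)) (x (k + 1)) < δ) →
    ∃ y : ℤ → X, (∀ k, f (y k) = y (k + 1)) ∧ ∀ k, dist (y k) (x k) < ε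

/-- Forward asymptotic points. -/
def FwdAsymp (f : X → X) (x y : X) : Prop :=
  Tendsto (fun k : ℕ => dist (f^[k] x) (f^[k] y)) atTop (𝓝 0)

/-- There is an `ε`-chain of length at least one from `x` to `y`. -/
def Chain (f : X → X) (ε : ℝ) (x y : X) : Prop :=
  ∃ (m : ℕ) (c : ℕ → X), 0 < m ∧ c 0 = x ∧ c m = y ∧ ∀ i < m, dist (f (c i)) (c (i + 1)) < ε

/-- Chain recurrent points. -/
def ChainRecurrent (f : X → X) (x : X) : Prop := ∀ ε : ℝ, 0 < ε → Chain f ε x x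

/-- Chain transitivity. -/
def ChainTransitive (f : X → X) : Prop := ∀ x y : X, ∀ ε : ℝ, 0 < ε → Chain f ε x y

end Top

end Pool.Agent.Lib.MP610fe3
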