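import Pool.Agent.Lib.MP_610fe3_an.Pairs

/-!
# Expansivity and nested stable sets
-/

open Set Filter Function
open scoped Topology

namespace Pool.Agent.Lib.MP610fe3

section Orb

variable {X : Type*} [TopologicalSpace X]

/-- The two sided orbit of a point. -/
def orb (f : X ≃ₜ X) (x : X) (i : ℤ) : X := (f ^ i) x

theorem orb_zero (f : X ≃ₜ X) (x : X) : orb f x 0 = x := by
  simp [orb]

theorem orb_succ (f : X ≃ₜ X) (x : X) (i : ℤ) : f (orb f x i) = orb f x (i + 1) := by
  rw [orb, orb, add_comm, zpow_one_add]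
  rfl

theorem iterate_orb (f : X ≃ₜ X) (x : X) (i : ℤ) (n : ℕ) :
    f^[n] (orb f x i) = orb f x (i + n) := by
  induction n with
  | zero => simp
  | succ n ih =>
    rw [iterate_succ_apply', ih, orb_succ]
    congr 1
    push_cast
    ring

theorem orb_nat (f : X ≃ₜ X) (x : X) (n : ℕ) : orb f x n = f^[n] x := by
  have := iterate_orb f x 0 n
  rw [orb_zero, zero_add] at this
  exact this.symm

theorem orb_neg (f : X ≃ₜ X) (x : X) (n : ℕ) : orb f x (-n) = f.symm^[n] x := by
  induction n with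
  | zero => simp [orb_zero]
  | succ n ih =>
    rw [iterate_succ_apply', ← ih]
    have := orb_succ f x (-(n + 1 : ℕ))
    rw [show (-((n + 1 : ℕ) : ℤ) + 1) = -(n : ℤ) by push_cast; ring] at this
    rw [← this, f.symm_apply_apply]

end Orb

section Unif

variable {X : Type*} [MetricSpace X] [CompactSpace X]

theorem exists_unif_iter {f : X → X} (hf : Continuous f) (N : ℕ) {ε : ℝ} (hε : 0 < ε) :
    ∃ δ : ℝ, 0 < δ ∧ ∀ x y, dist x y < δ → ∀ j ≤ N, dist (f^[j] x) (f^[j] y) < ε := by
  induction N with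
  | zero =>
    refine ⟨ε, hε, fun x y h j hj => ?_⟩
    obtain rfl : j = 0 := by omega
    simpa using h
  | succ N ih =>
    obtain ⟨δ, hδ, h⟩ := ih
    have hu := CompactSpace.uniformContinuous_of_continuous (hf.iterate (N + 1))
    obtain ⟨δ', hδ', h'⟩ := Metric.uniformContinuous_iff.1 hu ε hε
    refine ⟨min δ δ', lt_min hδ hδ', fun x y hxy j hj => ?_⟩
    rcases Nat.lt_or_ge j (N + 1) with hlt | hge
    · exact h x y (hxy.trans_le (min_le_left _ _)) j (by omega)
    · obtain rfl : j = N + 1 := by omega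
      exact h' (hxy.trans_le (min_le_right _ _))

theorem fwdAsymp_of_mul {f : X → X} (hf : Continuous f) {N : ℕ} (hN : 0 < N) {x y : X}
    (h : Tendsto (fun m : ℕ => dist (f^[N * m] x) (f^[N * m] y)) atTop (𝓝 0)) :
    FwdAsymp f x y := by
  rw [FwdAsymp, Metric.tendsto_atTop]
  intro ε hε
  obtain ⟨δ, hδ, hu⟩ := exists_unif_iter hf N hε
  obtain ⟨m₀, hm₀⟩ := (Metric.tendsto_atTop.1 h) δ hδ
  refine ⟨N * m₀, fun k hk => ?_⟩
  have hq : m₀ ≤ k / N := by
    rw [Nat.le_div_iff_mul_le hN]; linarith [Nat.mul_comm N m₀]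
  have h1 := hm₀ (k / N) hq
  rw [Real.dist_0_eq_abs, abs_of_nonneg dist_nonneg] at h1
  have h2 := hu _ _ h1 (k % N) (Nat.mod_lt _ hN).le
  rw [← iterate_add_apply, ← iterate_add_apply, Nat.mod_add_div] at h2
  rw [Real.dist_0_eq_abs, abs_of_nonneg dist_nonneg]
  exact h2

theorem tendsto_dist_iter {f : X → X} (hf : Continuous f) (N : ℕ) {a b : ℕ → X}
    (h : Tendsto (fun m => dist (a m) (b m)) atTop (𝓝 0)) :
    Tendsto (fun m => dist (f^[N] (a m)) (f^[N] (b m))) atTop (𝓝 0) := by
  rw [Metric.tendsto_atTop] at h ⊢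
  intro ε hε
  obtain ⟨δ, hδ, hu⟩ := exists_unif_iter hf N hε
  obtain ⟨m₀, hm₀⟩ := h δ hδ
  refine ⟨m₀, fun k hk => ?_⟩
  have h1 := hm₀ k hk
  rw [Real.dist_0_eq_abs, abs_of_nonneg dist_nonneg] at h1 ⊢
  exact hu _ _ h1 N le_rfl

end Unif

section Abstract

variable {M W : Type*} [MetricSpace M] [CompactSpace M] [NormedAddCommGroup W] [NormedSpace ℝ W]
  {E : Emb M W} {f : M ≃ₜ M}

theorem Split.expansive (s : Split E f) (hs : s.Hyperbolic) : Expansive f := by
  obtain ⟨k, r, hr, h⟩ := s.expansive_aux hs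
  refine ⟨r / 2, by positivity, fun x y hp hn => ?_⟩
  have hall : ∀ i : ℤ, dist (orb f x i) (orb f y i) ≤ r / 2 := by
    intro i
    rcases Int.eq_nat_or_neg i with ⟨n, rfl | rfl⟩
    · rw [orb_nat, orb_nat]; exact hp n
    · rw [orb_neg, orb_neg]; exact hn n
  have h1 := h (fun i => orb f x ((k + 1) * i)) (fun i => orb f y ((k + 1) * i))
    (fun i => ?_) (fun i => ?_) (fun i => ?_) 0
  · simpa [orb_zero] using h1.symm
  · simp only [iterate_orb]
    congr 1
    push_cast
    ring
  · simp only [iterate_orb]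
    congr 1
    push_cast
    ring
  · rw [dist_comm]
    exact lt_of_le_of_lt (hall _) (by linarith)

/-- Nested stable bundles give nested stable sets, for commuting homeomorphisms. -/
theorem nested {g : M ≃ₜ M} (s : Split E f) (t : Split E g) (hs : s.Hyperbolic)
    (ht : t.Hyperbolic) (hc : ∀ x, f (g x) = g (f x)) (h0 : ∀ x, t.U x ∘L s.S x = 0)
    {x y : M} (hxy : FwdAsymp f x y) : FwdAsymp g x y := by
  obtain ⟨Kt, hKt1, hKt⟩ := t.exists_bdd
  obtain ⟨k, hk⟩ := t.exists_strong ht (show (0 : ℝ) < 1 / 8 by norm_num)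
  obtain ⟨KG, hKG1, hKG⟩ := exists_norm_bound (t.pow k).hD.cont
  obtain ⟨rG, hrG, hG⟩ := (t.pow k).hD.approx (1 / 8) (by norm_num)
  set ρ : ℝ := min (1 / 8) (1 / (8 * (KG * Kt))) with hρdef
  have hKK : 0 < KG * Kt := by positivity
  have hρ : 0 < ρ := lt_min (by norm_num) (by positivity)
  have hρ8 : ρ ≤ 1 / 8 := min_le_left _ _
  have hρ2 : KG * Kt * ρ ≤ 1 / 8 := by
    have h1 : ρ ≤ 1 / (8 * (KG * Kt)) := min_le_right _ _
    calc KG * Kt * ρ ≤ KG * Kt * (1 / (8 * (KG * Kt))) := mul_le_mul_of_nonneg_left h1 hKK.le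
      _ = 1 / 8 := by field_simp
  obtain ⟨j₀, rf, hrf, hF⟩ := s.exists_forward hs hρ hρ8
  set G : M → M := g^[k + 1] with hGdef
  have hGcont : Continuous G := g.continuous.iterate _
  have hGc : Function.Commute f G := by
    have : Function.Commute f g := hc
    exact this.iterate_right (k + 1)
  set r : ℝ := min rf rG with hrdef
  have hr : 0 < r := lt_min hrf hrG
  -- one step
  have step : ∀ x z, (∀ m, dist (f^[m] z) (f^[m] x) < r) → dist (G z) (G x) ≤ dist z x / 2 := by
    intro x z hd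
    have hU := (hF x z (fun m => (hd m).trans_le (min_le_left _ _))).1
    have hA := hG x z ((hd 0).trans_le (min_le_right _ _))
    rw [hpow_apply, hpow_apply] at hA
    set v := E.e z - E.e x with hv
    have hvd : ‖v‖ = dist z x := (E.dist_eq z x).symm
    have hd0 : 0 ≤ dist z x := dist_nonneg
    have e1 : (t.pow k).D x v = (t.pow k).D x (t.S x v) + (t.pow k).D x (t.U x v) := by
      have a1 := congrArg (fun L => L v) ((t.pow k).hD.right x)
      have a2 := congrArg (fun L => L v) (t.add x)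
      simp only [ContinuousLinearMap.comp_apply, add_apply] at a1 a2
      rw [← map_add, a2, a1]
    have e2 : t.U x v = t.U x (s.U x v) := by
      have a1 := congrArg (fun L => L v) (t.UP x)
      have a2 := congrArg (fun L => L v) (s.add x)
      have a3 := congrArg (fun L => L v) (h0 x)
      simp only [ContinuousLinearMap.comp_apply, add_apply, zero_apply] at a1 a2 a3
      rw [← a1, ← a2, map_add, a3, zero_add]
    have e3 : ‖(t.pow k).D x (t.S x v)‖ ≤ 1 / 8 * dist z x := by
      rw [← hvd]; exact (hk x v).1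
    have e4 : ‖(t.pow k).D x (t.U x v)‖ ≤ 1 / 8 * dist z x := by
      rw [e2]
      calc ‖(t.pow k).D x (t.U x (s.U x v))‖ ≤ KG * ‖t.U x (s.U x v)‖ :=
            ((t.pow k).D x).le_of_opNorm_le (hKG x) _
        _ ≤ KG * (Kt * ‖s.U x v‖) := by
            gcongr
            exact (t.U x).le_of_opNorm_le (hKt x).2 _
        _ ≤ KG * (Kt * (ρ * dist z x)) := by gcongr
        _ = KG * Kt * ρ * dist z x := by ring
        _ ≤ 1 / 8 * dist z x := by gcongr
    have e5 : ‖E.e (G z) - E.e (G x)‖ ≤ 1 / 8 * dist z x + (1 / 8 * dist z x + 1 / 8 * dist z x) := by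
      have e6 : E.e (G z) - E.e (G x) = (E.e (G z) - E.e (G x) - (t.pow k).D x v)
          + ((t.pow k).D x (t.S x v) + (t.pow k).D x (t.U x v)) := by
        rw [← e1]; abel
      rw [e6]
      exact (norm_add_le _ _).trans (add_le_add hA ((norm_add_le _ _).trans (add_le_add e3 e4)))
    rw [E.dist_eq (G z) (G x)]
    linarith
  -- start
  obtain ⟨n₀, hn₀⟩ := (Metric.tendsto_atTop.1 hxy) (r / 2) (by positivity)
  set x' := f^[n₀] x with hx'
  set y' := f^[n₀] y with hy'
  have hstart : ∀ m, dist (f^[m] x') (f^[m] y') ≤ r / 2 := by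
    intro m
    have := hn₀ (m + n₀) (by omega)
    rw [Real.dist_0_eq_abs, abs_of_nonneg dist_nonneg, iterate_add_apply, iterate_add_apply]
      at this
    exact this.le
  have hdec : ∀ j m, dist (f^[m] (G^[j] x')) (f^[m] (G^[j] y')) ≤ r / 2 / 2 ^ j := by
    intro j
    induction j with
    | zero => intro m; simpa using hstart m
    | succ j ih =>
      intro m
      have hcomm : ∀ w, f^[m] (G^[j + 1] w) = G (f^[m] (G^[j] w)) := by
        intro w
        rw [iterate_succ_apply']
        exact (hGc.iterate_left m) _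
      rw [hcomm, hcomm]
      have h1 := step (f^[m] (G^[j] y')) (f^[m] (G^[j] x')) (fun m' => ?_)
      · refine h1.trans ?_
        have h2 := ih m
        have e : r / 2 / 2 ^ (j + 1) = r / 2 / 2 ^ j / 2 := by rw [pow_succ]; field_simp
        rw [e]
        linarith
      · rw [← iterate_add_apply, ← iterate_add_apply]
        refine lt_of_le_of_lt (ih _) ?_
        have : r / 2 / 2 ^ j ≤ r / 2 := div_le_self (by positivity) (one_le_pow₀ (by norm_num))
        linarith
  have hlim : Tendsto (fun j : ℕ => dist (G^[j] x') (G^[j] y')) atTop (𝓝 0) := by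
    have h5 := (tendsto_pow_atTop_nhds_zero_of_lt_one (r := (1 / 2 : ℝ)) (by norm_num)
      (by norm_num)).const_mul (r / 2)
    rw [mul_zero] at h5
    refine squeeze_zero (fun _ => dist_nonneg) (fun j => ?_) h5
    have := hdec j 0
    simp only [iterate_zero, id_eq] at this
    refine this.trans (le_of_eq ?_)
    rw [one_div, inv_pow, div_eq_mul_inv]
  have hG' : FwdAsymp g x' y' := by
    refine fwdAsymp_of_mul g.continuous (N := k + 1) (Nat.succ_pos k) ?_
    refine hlim.congr (fun j => ?_)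
    rw [hGdef, ← iterate_mul]
  -- go back by `f⁻¹`
  have hback := tendsto_dist_iter f.symm.continuous n₀ hG'
  refine hback.congr (fun j => ?_)
  have hcomm : ∀ w, f.symm^[n₀] (g^[j] (f^[n₀] w)) = g^[j] w := by
    intro w
    have h1 : Function.Commute f g := hc
    have h2 : g^[j] (f^[n₀] w) = f^[n₀] (g^[j] w) := ((h1.iterate_left n₀).iterate_right j w).symm
    rw [h2]
    have h3 : Function.LeftInverse (f.symm^[n₀]) (f^[n₀]) :=
      Function.LeftInverse.iterate f.symm_apply_apply n₀
    exact h3 _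
  rw [hx', hy', hcomm, hcomm]

end Abstract

end Pool.Agent.Lib.MP610fe3
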