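import Pool.Agent.Lib.MP_610fe3_an.Shadow

/-!
# Commuting hyperbolic homeomorphisms: the splittings commute
-/

open Set Filter Function
open scoped Topology

namespace Pool.Agent.Lib.MP610fe3

section Abstract

variable {M W : Type*} [MetricSpace M] [NormedAddCommGroup W] [NormedSpace ℝ W]
  {E : Emb M W}

/-- Uniqueness of the derivative. -/
theorem HasD.unique {h : M → M} {D D' : M → W →L[ℝ] W} (H : HasD E h D) (H' : HasD E h D')
    (x : M) : D x = D' x := by
  -- it suffices to show that `A = D x - D' x` kills all vectors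
  set A : W →L[ℝ] W := D x - D' x with hA
  have hAP : ∀ w, A (E.P x w) = A w := by
    intro w
    have h1 := congrArg (fun L => L w) (H.right x)
    have h2 := congrArg (fun L => L w) (H'.right x)
    simp only [ContinuousLinearMap.comp_apply] at h1 h2
    simp only [hA, sub_apply, h1, h2]
  suffices hz : ∀ w, A w = 0 by
    ext w
    have := hz w
    simp only [hA, sub_apply] at this
    exact sub_eq_zero.1 this
  intro w
  by_contra hne
  have hpos : 0 < ‖A w‖ := norm_pos_iff.2 hne
  have hw : w ≠ 0 := by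
    rintro rfl
    simp at hne
  have hwpos : 0 < ‖w‖ := norm_pos_iff.2 hw
  set K : ℝ := ‖E.P x‖ with hK
  have hK0 : 0 ≤ K := norm_nonneg _
  -- choose `η`
  set η : ℝ := min 1 (‖A w‖ / (2 * (2 * (K + 1) + ‖A‖) * ‖w‖)) with hη
  have hden : 0 < 2 * (2 * (K + 1) + ‖A‖) * ‖w‖ := by positivity
  have hηpos : 0 < η := lt_min one_pos (by positivity)
  have hη1 : η ≤ 1 := min_le_left _ _
  have hη2 : η * (2 * (2 * (K + 1) + ‖A‖) * ‖w‖) ≤ ‖A w‖ := by
    have h1 : η ≤ ‖A w‖ / (2 * (2 * (K + 1) + ‖A‖) * ‖w‖) := min_le_right _ _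
    rwa [le_div_iff₀ hden] at h1
  obtain ⟨r₁, hr₁, h₁⟩ := H.approx η hηpos
  obtain ⟨r₂, hr₂, h₂⟩ := H'.approx η hηpos
  obtain ⟨r₃, hr₃, h₃⟩ := E.exists_pt η hηpos
  -- a small multiple of `w`
  set r := min (min r₁ r₂) r₃ with hr
  have hrpos : 0 < r := lt_min (lt_min hr₁ hr₂) hr₃
  set l : ℝ := r / (2 * (K + 1) * ‖w‖) with hl
  have hlpos : 0 < l := by positivity
  have hlw : l * ‖w‖ * (2 * (K + 1)) = r := by
    rw [hl]; field_simp
  obtain ⟨z, hz⟩ := h₃ x (l • w) (by
    rw [norm_smul, Real.norm_of_nonneg hlpos.le]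
    have : l * ‖w‖ < r := by nlinarith [mul_pos hlpos hwpos]
    exact this.trans_le (min_le_right _ _))
  rw [norm_smul, Real.norm_of_nonneg hlpos.le] at hz
  have hlw0 : 0 < l * ‖w‖ := by positivity
  have hdz : dist z x ≤ (K + 1) * (l * ‖w‖) := by
    rw [E.dist_eq]
    calc ‖E.e z - E.e x‖ = ‖(E.e z - E.e x - E.P x (l • w)) + E.P x (l • w)‖ := by
          congr 1; abel
      _ ≤ η * (l * ‖w‖) + K * (l * ‖w‖) := by
          refine (norm_add_le _ _).trans (add_le_add hz ?_)
          have := (E.P x).le_opNorm (l • w)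
          rwa [norm_smul, Real.norm_of_nonneg hlpos.le] at this
      _ ≤ (K + 1) * (l * ‖w‖) := by nlinarith
  have hdzr : dist z x < r := by nlinarith
  have e1 := h₁ x z (hdzr.trans_le ((min_le_left _ _).trans (min_le_left _ _)))
  have e2 := h₂ x z (hdzr.trans_le ((min_le_left _ _).trans (min_le_right _ _)))
  have e3 : ‖A (E.e z - E.e x)‖ ≤ 2 * η * dist z x := by
    have : A (E.e z - E.e x) = (E.e (h z) - E.e (h x) - D' x (E.e z - E.e x))
        - (E.e (h z) - E.e (h x) - D x (E.e z - E.e x)) := by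
      simp only [hA, sub_apply]; abel
    rw [this]
    refine (norm_sub_le _ _).trans ?_
    linarith
  have e4 : A (l • w) = A (E.e z - E.e x) - A (E.e z - E.e x - E.P x (l • w)) := by
    rw [← hAP (l • w), ← map_sub]; congr 1; abel
  have e5 : ‖A (l • w)‖ ≤ 2 * η * ((K + 1) * (l * ‖w‖)) + ‖A‖ * (η * (l * ‖w‖)) := by
    rw [e4]
    refine (norm_sub_le _ _).trans (add_le_add (e3.trans ?_) ?_)
    · exact mul_le_mul_of_nonneg_left hdz (by positivity)
    · exact (A.le_opNorm _).trans (mul_le_mul_of_nonneg_left hz (norm_nonneg _))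
  rw [map_smul, norm_smul, Real.norm_of_nonneg hlpos.le] at e5
  have e6 : l * ‖A w‖ ≤ l * (η * ((2 * (K + 1) + ‖A‖) * ‖w‖)) := by
    refine e5.trans (le_of_eq ?_)
    ring
  have e7 := le_of_mul_le_mul_left e6 hlpos
  nlinarith

variable [CompactSpace M]

/-- Derivatives of commuting maps. -/
theorem comm_D {h h' : M → M} {D D' : M → W →L[ℝ] W} (hh : Continuous h) (hh' : Continuous h')
    (H : HasD E h D) (H' : HasD E h' D') (hc : ∀ x, h (h' x) = h' (h x)) (x : M) :
    D (h' x) ∘L D' x = D' (h x) ∘L D x := by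
  have h1 := HasD.comp hh' H' H
  have h2 := HasD.comp hh H H'
  have h3 : h ∘ h' = h' ∘ h := funext hc
  rw [h3] at h1
  exact h1.unique h2 x

theorem comm_iterD {h h' : M → M} {D D' : M → W →L[ℝ] W} (hh : Continuous h)
    (hh' : Continuous h') (H : HasD E h D) (H' : HasD E h' D')
    (hc : ∀ x, h (h' x) = h' (h x)) (k : ℕ) (x : M) :
    iterD D h k (h' x) ∘L D' x = D' (h^[k] x) ∘L iterD D h k x := by
  induction k generalizing x with
  | zero => simp [iterD]
  | succ k ih =>
    rw [show iterD D h (k + 1) (h' x) = iterD D h k (h (h' x)) ∘L D (h' x) from rfl,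
      ContinuousLinearMap.comp_assoc, comm_D hh hh' H H' hc, hc, ← ContinuousLinearMap.comp_assoc,
      ih, ContinuousLinearMap.comp_assoc, iterate_succ_apply]
    rfl

variable {f g : M ≃ₜ M}

/-- The derivative of `f` commutes with the splitting of a commuting `g`. -/
theorem D_commutes (s : Split E f) (t : Split E g) (ht : t.Hyperbolic)
    (hc : ∀ x, f (g x) = g (f x)) (x : M) :
    (∀ w, t.U (f x) (s.D x (t.S x w)) = 0) ∧ (∀ w, t.S (f x) (s.D x (t.U x w)) = 0) := by
  obtain ⟨C, l, hC, hl, hl1, hest⟩ := ht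
  obtain ⟨K, hK1, hK⟩ := exists_norm_bound s.hD.cont
  obtain ⟨Kt, hKt1, hKt⟩ := t.exists_bdd
  have hlim0 : Tendsto (fun k : ℕ => (l ^ (k + 1)) * (l ^ (k + 1))) atTop (𝓝 0) := by
    have h1 := (tendsto_pow_atTop_nhds_zero_of_lt_one hl.le hl1).comp (tendsto_add_atTop_nat 1)
    have h2 := h1.mul h1
    rw [mul_zero] at h2
    exact h2
  constructor
  · intro w
    set v := s.D x (t.S x w) with hv
    have hbound : ∀ k : ℕ, ‖t.U (f x) v‖ ≤ (C * (K * (C * ‖w‖))) * (l ^ (k + 1) * l ^ (k + 1)) := by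
      intro k
      -- `U v = Di^k U D^k v`
      have e1 : t.U (f x) v = iterD t.Di g.symm (k + 1) (g^[k + 1] (f x))
          (t.U (g^[k + 1] (f x)) (iterD t.D g (k + 1) (f x) v)) := by
        have a1 := congrArg (fun L => L v) (t.iterDU (k + 1) (f x))
        have a2 := congrArg (fun L => L (t.U (f x) v)) (t.iter_inv1 k (f x))
        have a3 := congrArg (fun L => L v) (t.PU (f x))
        simp only [ContinuousLinearMap.comp_apply] at a1 a2 a3
        rw [← a1, a2, a3]
      have e2 : iterD t.D g (k + 1) (f x) v = s.D (g^[k + 1] x) (iterD t.D g (k + 1) x (t.S x w)) := by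
        have a1 := congrArg (fun L => L (t.S x w)) (comm_iterD g.continuous f.continuous t.hD s.hD
          (fun x => (hc x).symm) (k + 1) x)
        simpa using a1
      have e3 := (hest (k + 1) x w).1
      have e4 : ‖iterD t.D g (k + 1) (f x) v‖ ≤ K * (C * l ^ (k + 1) * ‖w‖) := by
        rw [e2]
        exact ((s.D _).le_of_opNorm_le (hK _) _).trans
          (mul_le_mul_of_nonneg_left e3 (by linarith))
      rw [e1]
      have e5 := (hest (k + 1) (g^[k + 1] (f x)) (iterD t.D g (k + 1) (f x) v)).2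
      refine e5.trans ?_
      calc C * l ^ (k + 1) * ‖iterD t.D g (k + 1) (f x) v‖
          ≤ C * l ^ (k + 1) * (K * (C * l ^ (k + 1) * ‖w‖)) :=
            mul_le_mul_of_nonneg_left e4 (by positivity)
        _ = _ := by ring
    have hlim := hlim0.const_mul (C * (K * (C * ‖w‖)))
    rw [mul_zero] at hlim
    have h0 := ge_of_tendsto' hlim hbound
    exact norm_le_zero_iff.1 h0
  · intro w
    set v := s.D x (t.U x w) with hv
    have hc' : ∀ x, g.symm (f x) = f (g.symm x) := by
      intro x
      apply g.injective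
      rw [g.apply_symm_apply, ← hc, g.apply_symm_apply]
    have hbound : ∀ k : ℕ, ‖t.S (f x) v‖ ≤ (C * (K * (C * ‖w‖))) * (l ^ (k + 1) * l ^ (k + 1)) := by
      intro k
      have hDiS : ∀ (k : ℕ) (y : M), iterD t.Di g.symm k y ∘L t.S y
          = t.S (g.symm^[k] y) ∘L iterD t.Di g.symm k y := by
        intro k
        induction k with
        | zero => intro y; simp [iterD]
        | succ k ih =>
          intro y
          rw [show iterD t.Di g.symm (k + 1) y = iterD t.Di g.symm k (g.symm y) ∘L t.Di y from rfl,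
            ContinuousLinearMap.comp_assoc, t.DiS, ← ContinuousLinearMap.comp_assoc, ih,
            ContinuousLinearMap.comp_assoc, iterate_succ_apply]
      have e1 : t.S (f x) v = iterD t.D g (k + 1) (g.symm^[k + 1] (f x))
          (t.S (g.symm^[k + 1] (f x)) (iterD t.Di g.symm (k + 1) (f x) v)) := by
        have a1 := congrArg (fun L => L v) (hDiS (k + 1) (f x))
        have a2 := congrArg (fun L => L (t.S (f x) v)) (t.iter_inv2 k (f x))
        have a3 := congrArg (fun L => L v) (t.PS (f x))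
        simp only [ContinuousLinearMap.comp_apply] at a1 a2 a3
        rw [← a1, a2, a3]
      have e2 : iterD t.Di g.symm (k + 1) (f x) v
          = s.D (g.symm^[k + 1] x) (iterD t.Di g.symm (k + 1) x (t.U x w)) := by
        have a1 := congrArg (fun L => L (t.U x w)) (comm_iterD g.symm.continuous f.continuous
          t.hDi s.hD hc' (k + 1) x)
        simpa using a1
      have e3 := (hest (k + 1) x w).2
      have e4 : ‖iterD t.Di g.symm (k + 1) (f x) v‖ ≤ K * (C * l ^ (k + 1) * ‖w‖) := by
        rw [e2]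
        exact ((s.D _).le_of_opNorm_le (hK _) _).trans
          (mul_le_mul_of_nonneg_left e3 (by linarith))
      rw [e1]
      have e5 := (hest (k + 1) (g.symm^[k + 1] (f x)) (iterD t.Di g.symm (k + 1) (f x) v)).1
      refine e5.trans ?_
      calc C * l ^ (k + 1) * ‖iterD t.Di g.symm (k + 1) (f x) v‖
          ≤ C * l ^ (k + 1) * (K * (C * l ^ (k + 1) * ‖w‖)) :=
            mul_le_mul_of_nonneg_left e4 (by positivity)
        _ = _ := by ring
    have hlim := hlim0.const_mul (C * (K * (C * ‖w‖)))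
    rw [mul_zero] at hlim
    have h0 := ge_of_tendsto' hlim hbound
    exact norm_le_zero_iff.1 h0

/-- `D f` commutes with `S g` and `U g`. -/
theorem DS_commutes (s : Split E f) (t : Split E g) (ht : t.Hyperbolic)
    (hc : ∀ x, f (g x) = g (f x)) (x : M) :
    s.D x ∘L t.S x = t.S (f x) ∘L s.D x ∧ s.D x ∘L t.U x = t.U (f x) ∘L s.D x := by
  obtain ⟨h1, h2⟩ := D_commutes s t ht hc x
  have hP : ∀ w, s.D x w = s.D x (t.S x w) + s.D x (t.U x w) := by
    intro w
    have a1 := congrArg (fun L => L w) (s.hD.right x)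
    have a2 := congrArg (fun L => L w) (t.add x)
    simp only [ContinuousLinearMap.comp_apply, add_apply] at a1 a2
    rw [← map_add, a2, a1]
  have hL : ∀ v, t.S (f x) (s.D x v) + t.U (f x) (s.D x v) = s.D x v := by
    intro v
    have a1 := congrArg (fun L => L v) (s.hD.left x)
    have a2 := congrArg (fun L => L (s.D x v)) (t.add (f x))
    simp only [ContinuousLinearMap.comp_apply, add_apply] at a1 a2
    rw [a2, a1]
  constructor
  · ext w
    simp only [ContinuousLinearMap.comp_apply]
    have e1 := hL (t.S x w)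
    rw [h1 w, add_zero] at e1
    have e2 : t.S (f x) (s.D x w) = t.S (f x) (s.D x (t.S x w)) := by
      rw [hP w, map_add, h2 w, add_zero]
    rw [e2, e1]
  · ext w
    simp only [ContinuousLinearMap.comp_apply]
    have e1 := hL (t.U x w)
    rw [h2 w, zero_add] at e1
    have e2 : t.U (f x) (s.D x w) = t.U (f x) (s.D x (t.U x w)) := by
      rw [hP w, map_add, h1 w, zero_add]
    rw [e2, e1]

theorem iterDS_commutes (s : Split E f) (t : Split E g) (ht : t.Hyperbolic)
    (hc : ∀ x, f (g x) = g (f x)) (k : ℕ) (x : M) :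
    iterD s.D f k x ∘L t.S x = t.S (f^[k] x) ∘L iterD s.D f k x := by
  induction k generalizing x with
  | zero => simp [iterD]
  | succ k ih =>
    rw [show iterD s.D f (k + 1) x = iterD s.D f k (f x) ∘L s.D x from rfl,
      ContinuousLinearMap.comp_assoc, (DS_commutes s t ht hc x).1,
      ← ContinuousLinearMap.comp_assoc, ih, ContinuousLinearMap.comp_assoc, iterate_succ_apply]

theorem DiS_commutes (s : Split E f) (t : Split E g) (ht : t.Hyperbolic)
    (hc : ∀ x, f (g x) = g (f x)) (x : M) :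
    s.Di x ∘L t.S x = t.S (f.symm x) ∘L s.Di x := by
  have h1 := (DS_commutes s t ht hc (f.symm x)).1
  rw [f.apply_symm_apply] at h1
  have h2 : s.Di x ∘L s.D (f.symm x) = E.P (f.symm x) := by
    have := s.inv1 (f.symm x)
    rwa [f.apply_symm_apply] at this
  have h3 : t.S (f.symm x) = s.Di x ∘L t.S x ∘L s.D (f.symm x) := by
    rw [← h1, ← ContinuousLinearMap.comp_assoc, h2, t.PS]
  rw [h3, ContinuousLinearMap.comp_assoc, ContinuousLinearMap.comp_assoc, s.inv2 x, t.SP]

theorem iterDiS_commutes (s : Split E f) (t : Split E g) (ht : t.Hyperbolic)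
    (hc : ∀ x, f (g x) = g (f x)) (k : ℕ) (x : M) :
    iterD s.Di f.symm k x ∘L t.S x = t.S (f.symm^[k] x) ∘L iterD s.Di f.symm k x := by
  induction k generalizing x with
  | zero => simp [iterD]
  | succ k ih =>
    rw [show iterD s.Di f.symm (k + 1) x = iterD s.Di f.symm k (f.symm x) ∘L s.Di x from rfl,
      ContinuousLinearMap.comp_assoc, DiS_commutes s t ht hc x,
      ← ContinuousLinearMap.comp_assoc, ih, ContinuousLinearMap.comp_assoc, iterate_succ_apply]

/-- The stable projections of commuting hyperbolic homeomorphisms commute. -/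
theorem SS_commute (s : Split E f) (t : Split E g) (hs : s.Hyperbolic) (ht : t.Hyperbolic)
    (hc : ∀ x, f (g x) = g (f x)) (x : M) : s.S x ∘L t.S x = t.S x ∘L s.S x := by
  obtain ⟨C, l, hC, hl, hl1, hest⟩ := hs
  obtain ⟨Kt, hKt1, hKt⟩ := t.exists_bdd
  have hlim0 : Tendsto (fun k : ℕ => (l ^ (k + 1)) * (l ^ (k + 1))) atTop (𝓝 0) := by
    have h1 := (tendsto_pow_atTop_nhds_zero_of_lt_one hl.le hl1).comp (tendsto_add_atTop_nat 1)
    have h2 := h1.mul h1
    rw [mul_zero] at h2
    exact h2
  -- `U_f S_g S_f = 0`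
  have h1 : ∀ w, s.U x (t.S x (s.S x w)) = 0 := by
    intro w
    set v := t.S x (s.S x w) with hv
    have hbound : ∀ k : ℕ, ‖s.U x v‖ ≤ (C * (Kt * (C * ‖w‖))) * (l ^ (k + 1) * l ^ (k + 1)) := by
      intro k
      have e1 : s.U x v = iterD s.Di f.symm (k + 1) (f^[k + 1] x)
          (s.U (f^[k + 1] x) (iterD s.D f (k + 1) x v)) := by
        have a1 := congrArg (fun L => L v) (s.iterDU (k + 1) x)
        have a2 := congrArg (fun L => L (s.U x v)) (s.iter_inv1 k x)
        have a3 := congrArg (fun L => L v) (s.PU x)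
        simp only [ContinuousLinearMap.comp_apply] at a1 a2 a3
        rw [← a1, a2, a3]
      have e2 : iterD s.D f (k + 1) x v = t.S (f^[k + 1] x) (iterD s.D f (k + 1) x (s.S x w)) := by
        have a1 := congrArg (fun L => L (s.S x w)) (iterDS_commutes s t ht hc (k + 1) x)
        simpa using a1
      have e3 := (hest (k + 1) x w).1
      have e4 : ‖iterD s.D f (k + 1) x v‖ ≤ Kt * (C * l ^ (k + 1) * ‖w‖) := by
        rw [e2]
        exact ((t.S _).le_of_opNorm_le (hKt _).1 _).trans
          (mul_le_mul_of_nonneg_left e3 (by linarith))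
      rw [e1]
      have e5 := (hest (k + 1) (f^[k + 1] x) (iterD s.D f (k + 1) x v)).2
      refine e5.trans ?_
      calc C * l ^ (k + 1) * ‖iterD s.D f (k + 1) x v‖
          ≤ C * l ^ (k + 1) * (Kt * (C * l ^ (k + 1) * ‖w‖)) :=
            mul_le_mul_of_nonneg_left e4 (by positivity)
        _ = _ := by ring
    have hlim := hlim0.const_mul (C * (Kt * (C * ‖w‖)))
    rw [mul_zero] at hlim
    exact norm_le_zero_iff.1 (ge_of_tendsto' hlim hbound)
  -- `S_f S_g U_f = 0`
  have h2 : ∀ w, s.S x (t.S x (s.U x w)) = 0 := by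
    intro w
    set v := t.S x (s.U x w) with hv
    have hDiS : ∀ (k : ℕ) (y : M), iterD s.Di f.symm k y ∘L s.S y
        = s.S (f.symm^[k] y) ∘L iterD s.Di f.symm k y := by
      intro k
      induction k with
      | zero => intro y; simp [iterD]
      | succ k ih =>
        intro y
        rw [show iterD s.Di f.symm (k + 1) y = iterD s.Di f.symm k (f.symm y) ∘L s.Di y from rfl,
          ContinuousLinearMap.comp_assoc, s.DiS, ← ContinuousLinearMap.comp_assoc, ih,
          ContinuousLinearMap.comp_assoc, iterate_succ_apply]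
    have hbound : ∀ k : ℕ, ‖s.S x v‖ ≤ (C * (Kt * (C * ‖w‖))) * (l ^ (k + 1) * l ^ (k + 1)) := by
      intro k
      have e1 : s.S x v = iterD s.D f (k + 1) (f.symm^[k + 1] x)
          (s.S (f.symm^[k + 1] x) (iterD s.Di f.symm (k + 1) x v)) := by
        have a1 := congrArg (fun L => L v) (hDiS (k + 1) x)
        have a2 := congrArg (fun L => L (s.S x v)) (s.iter_inv2 k x)
        have a3 := congrArg (fun L => L v) (s.PS x)
        simp only [ContinuousLinearMap.comp_apply] at a1 a2 a3
        rw [← a1, a2, a3]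
      have e2 : iterD s.Di f.symm (k + 1) x v
          = t.S (f.symm^[k + 1] x) (iterD s.Di f.symm (k + 1) x (s.U x w)) := by
        have a1 := congrArg (fun L => L (s.U x w)) (iterDiS_commutes s t ht hc (k + 1) x)
        simpa using a1
      have e3 := (hest (k + 1) x w).2
      have e4 : ‖iterD s.Di f.symm (k + 1) x v‖ ≤ Kt * (C * l ^ (k + 1) * ‖w‖) := by
        rw [e2]
        exact ((t.S _).le_of_opNorm_le (hKt _).1 _).trans
          (mul_le_mul_of_nonneg_left e3 (by linarith))
      rw [e1]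
      have e5 := (hest (k + 1) (f.symm^[k + 1] x) (iterD s.Di f.symm (k + 1) x v)).1
      refine e5.trans ?_
      calc C * l ^ (k + 1) * ‖iterD s.Di f.symm (k + 1) x v‖
          ≤ C * l ^ (k + 1) * (Kt * (C * l ^ (k + 1) * ‖w‖)) :=
            mul_le_mul_of_nonneg_left e4 (by positivity)
        _ = _ := by ring
    have hlim := hlim0.const_mul (C * (Kt * (C * ‖w‖)))
    rw [mul_zero] at hlim
    exact norm_le_zero_iff.1 (ge_of_tendsto' hlim hbound)
  ext w
  simp only [ContinuousLinearMap.comp_apply]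
  have a1 : ∀ v, E.P x v = s.S x v + s.U x v := fun v => by
    have := congrArg (fun L => L v) (s.add x); simpa using this.symm
  have a2 : ∀ v, t.S x (E.P x v) = t.S x v := fun v => by
    have := congrArg (fun L => L v) (t.SP x); simpa using this
  have a3 : ∀ v, E.P x (t.S x v) = t.S x v := fun v => by
    have := congrArg (fun L => L v) (t.PS x); simpa using this
  have e1 : s.S x (t.S x w) = s.S x (t.S x (s.S x w)) := by
    conv_lhs => rw [← a2 w, a1 w, map_add, map_add, h2 w, add_zero]
  have e2 : t.S x (s.S x w) = s.S x (t.S x (s.S x w)) := by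
    conv_lhs => rw [← a3 (s.S x w), a1, h1 w, add_zero]
  rw [e1, ← e2]

/-- `U_g ∘ S_f` is idempotent. -/
theorem US_idem (s : Split E f) (t : Split E g) (hs : s.Hyperbolic) (ht : t.Hyperbolic)
    (hc : ∀ x, f (g x) = g (f x)) (x : M) :
    t.U x ∘L s.S x = s.S x ∘L t.U x ∧
      (t.U x ∘L s.S x) ∘L (t.U x ∘L s.S x) = t.U x ∘L s.S x := by
  have hcomm := SS_commute s t hs ht hc x
  have hU : t.U x = E.P x - t.S x := by rw [← t.add x]; abel
  have h1 : t.U x ∘L s.S x = s.S x ∘L t.U x := by
    rw [hU, ContinuousLinearMap.sub_comp, ContinuousLinearMap.comp_sub, s.PS, s.SP, hcomm]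
  refine ⟨h1, ?_⟩
  calc (t.U x ∘L s.S x) ∘L (t.U x ∘L s.S x)
      = t.U x ∘L ((s.S x ∘L t.U x) ∘L s.S x) := by
        simp only [ContinuousLinearMap.comp_assoc]
    _ = t.U x ∘L ((t.U x ∘L s.S x) ∘L s.S x) := by rw [h1]
    _ = (t.U x ∘L t.U x) ∘L (s.S x ∘L s.S x) := by
        simp only [ContinuousLinearMap.comp_assoc]
    _ = t.U x ∘L s.S x := by rw [t.UU, s.SS]

theorem Split.continuous_U (s : Split E f) (hs : s.Hyperbolic) : Continuous s.U := by
  rw [Metric.continuous_iff]
  intro x ε hε
  obtain ⟨r, hr, h⟩ := s.exists_unifU hs (show 0 < ε / 2 by positivity)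
  refine ⟨r, hr, fun z hz => ?_⟩
  rw [dist_eq_norm]
  refine lt_of_le_of_lt (ContinuousLinearMap.opNorm_le_bound _ (by positivity) (fun w => ?_))
    (show ε / 2 < ε by linarith)
  exact h x z hz w

theorem Split.continuous_S (s : Split E f) (hs : s.Hyperbolic) : Continuous s.S := by
  have : s.S = fun x => E.P x - s.U x := by
    funext x; rw [← s.add x]; abel
  rw [this]
  exact E.contP.sub (s.continuous_U hs)

/-- If `U_g ∘ S_f` vanishes at one point of a connected space then it vanishes everywhere. -/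
theorem US_zero [FiniteDimensional ℝ W] [PreconnectedSpace M] (s : Split E f) (t : Split E g)
    (hs : s.Hyperbolic) (ht : t.Hyperbolic) (hc : ∀ x, f (g x) = g (f x)) {x₀ : M}
    (h0 : t.U x₀ ∘L s.S x₀ = 0) (x : M) : t.U x ∘L s.S x = 0 := by
  set Q : M → W →L[ℝ] W := fun x => t.U x ∘L s.S x with hQ
  have hcont : Continuous Q := (t.continuous_U ht).clm_comp (s.continuous_S hs)
  have hidem : ∀ x, IsIdempotentElem (Q x : W →ₗ[ℝ] W) := by
    intro x
    have := (US_idem s t hs ht hc x).2
    have h2 := congrArg (fun L : W →L[ℝ] W => (L : W →ₗ[ℝ] W)) this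
    exact h2
  -- trace of an idempotent is a natural number
  have htr : ∀ x, ∃ m : ℕ, LinearMap.trace ℝ W (Q x : W →ₗ[ℝ] W) = m := by
    intro x
    have hproj : LinearMap.IsProj (LinearMap.range (Q x : W →ₗ[ℝ] W)) (Q x : W →ₗ[ℝ] W) :=
      ⟨fun w => ⟨w, rfl⟩, by
        rintro _ ⟨w, rfl⟩
        exact congrArg (fun L => L w) (hidem x)⟩
    exact ⟨_, hproj.trace⟩
  have hct : Continuous (fun x => LinearMap.trace ℝ W (Q x : W →ₗ[ℝ] W)) := by
    have h1 : Continuous (fun L : W →L[ℝ] W => LinearMap.trace ℝ W (L : W →ₗ[ℝ] W)) := by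
      have h2 : Continuous ((LinearMap.trace ℝ W).comp
        (ContinuousLinearMap.coeLM ℝ : (W →L[ℝ] W) →ₗ[ℝ] (W →ₗ[ℝ] W))) :=
        LinearMap.continuous_of_finiteDimensional _
      exact h2
    exact h1.comp hcont
  -- the trace is constant
  have hzero : LinearMap.trace ℝ W (Q x : W →ₗ[ℝ] W) = 0 := by
    have hx0 : LinearMap.trace ℝ W (Q x₀ : W →ₗ[ℝ] W) = 0 := by
      have : Q x₀ = 0 := h0
      rw [this]; simp
    by_contra hne
    have hpc : IsPreconnected (range (fun x => LinearMap.trace ℝ W (Q x : W →ₗ[ℝ] W))) :=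
      isPreconnected_range hct
    obtain ⟨m, hm⟩ := htr x
    have hm1 : (1 : ℝ) ≤ m := by
      have : m ≠ 0 := by rintro rfl; exact hne (by simpa using hm)
      exact_mod_cast Nat.one_le_iff_ne_zero.2 this
    have hsub := hpc.ordConnected.out ⟨x₀, rfl⟩ ⟨x, rfl⟩
    have hhalf : (1 / 2 : ℝ) ∈ range (fun x => LinearMap.trace ℝ W (Q x : W →ₗ[ℝ] W)) := by
      apply hsub
      constructor
      · simp only [hx0]; norm_num
      · simp only [hm]; linarith
    obtain ⟨y, hy⟩ := hhalf
    obtain ⟨m', hm'⟩ := htr y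
    simp only [hm'] at hy
    have h2 : (2 * m' : ℝ) = 1 := by linarith
    have h3 : 2 * m' = 1 := by exact_mod_cast h2
    omega
  have h4 := (LinearMap.IsIdempotentElem.trace_eq_zero_iff (hidem x)).1 hzero
  ext w
  exact congrArg (fun L => L w) h4

end Abstract

end Pool.Agent.Lib.MP610fe3
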