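import Pool.Agent.Lib.MP_610fe3_an.Defs

/-!
# Shadowing and chain transitivity imply topological transitivity
-/

open Set Filter Function
open scoped Topology

namespace Pool.Agent.Lib.MP610fe3

section

variable {X : Type*} [MetricSpace X]

/-- The bi-infinite sequence which follows the backward orbit of `c 0`, then `c 0, ..., c m`, then
the forward orbit of `c m`. -/
def extendChain (f : X ≃ₜ X) (c : ℕ → X) (m : ℕ) (k : ℤ) : X :=
  if k < 0 then (f.symm)^[(-k).toNat] (c 0)
  else if k ≤ m then c k.toNat else f^[(k - m).toNat] (c m)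

lemma extendChain_nat {f : X ≃ₜ X} {c : ℕ → X} {m i : ℕ} (hi : i ≤ m) :
    extendChain f c m (i : ℤ) = c i := by
  unfold extendChain
  have h1 : ¬ ((i : ℤ) < 0) := by omega
  have h2 : (i : ℤ) ≤ (m : ℤ) := by omega
  simp [h1, hi]

lemma extendChain_pseudo {f : X ≃ₜ X} {c : ℕ → X} {m : ℕ} {δ : ℝ} (hδ : 0 < δ)
    (hc : ∀ i < m, dist (f (c i)) (c (i + 1)) < δ) (k : ℤ) :
    dist (f (extendChain f c m k)) (extendChain f c m (k + 1)) < δ := by
  rcases lt_or_ge k 0 with hk | hk
  · obtain ⟨j, rfl⟩ : ∃ j : ℕ, k = -((j : ℤ) + 1) := ⟨(-k).toNat - 1, by omega⟩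
    have h1 : extendChain f c m (-((j : ℤ) + 1)) = (f.symm)^[j + 1] (c 0) := by
      unfold extendChain
      rw [if_pos (by omega)]
      congr 1
    have h2 : extendChain f c m (-((j : ℤ) + 1) + 1) = (f.symm)^[j] (c 0) := by
      unfold extendChain
      rcases Nat.eq_zero_or_pos j with h | h
      · subst h
        simp
      · rw [if_pos (by omega)]
        congr 1
        omega
    rw [h1, h2, iterate_succ_apply', f.apply_symm_apply, dist_self]
    exact hδ
  · obtain ⟨i, rfl⟩ : ∃ i : ℕ, k = (i : ℤ) := ⟨k.toNat, by omega⟩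
    rcases lt_or_ge i m with hi | hi
    · rw [extendChain_nat hi.le, show ((i : ℤ) + 1) = ((i + 1 : ℕ) : ℤ) by push_cast; ring,
        extendChain_nat (by omega : i + 1 ≤ m)]
      exact hc i hi
    · have h1 : extendChain f c m (i : ℤ) = f^[i - m] (c m) := by
        rcases hi.eq_or_lt with h | h
        · subst h
          rw [extendChain_nat le_rfl]
          simp
        · unfold extendChain
          rw [if_neg (by omega), if_neg (by omega)]
          congr 1
          omega
      have h2 : extendChain f c m ((i : ℤ) + 1) = f^[i - m + 1] (c m) := by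
        unfold extendChain
        rw [if_neg (by omega), if_neg (by omega)]
        congr 1
        omega
      rw [h1, h2, iterate_succ_apply', dist_self]
      exact hδ

lemma orbit_nat {f : X ≃ₜ X} {y : ℤ → X} (hy : ∀ k, f (y k) = y (k + 1)) (i : ℕ) :
    y i = f^[i] (y 0) := by
  induction i with
  | zero => rfl
  | succ i ih =>
    rw [iterate_succ_apply', ← ih, hy]
    norm_num

/-- A chain is shadowed by an orbit segment. -/
lemma Shadowing.of_chain {f : X ≃ₜ X} (hs : Shadowing f) {ε : ℝ} (hε : 0 < ε) :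
    ∃ δ : ℝ, 0 < δ ∧ ∀ x y, Chain f δ x y → ∃ (m : ℕ) (z : X), 0 < m ∧ dist z x < ε ∧
      dist (f^[m] z) y < ε := by
  obtain ⟨δ, hδ, hsh⟩ := hs ε hε
  refine ⟨δ, hδ, ?_⟩
  rintro x y ⟨m, c, hm, h0, hl, hc⟩
  obtain ⟨z, hz1, hz2⟩ := hsh (extendChain f c m) (extendChain_pseudo hδ hc)
  refine ⟨m, z 0, hm, ?_, ?_⟩
  · have := hz2 0
    rw [show (0 : ℤ) = ((0 : ℕ) : ℤ) from rfl, extendChain_nat (Nat.zero_le m), h0] at this
    exact this
  · have := hz2 m
    rw [extendChain_nat le_rfl, hl, orbit_nat hz1] at this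
    exact this

/-- Chain transitivity and shadowing imply transitivity. -/
theorem topTransitive_of_shadowing {f : X ≃ₜ X} (hs : Shadowing f) (hc : ChainTransitive f) :
    TopTransitive f := by
  intro U V hU hV hUne hVne
  obtain ⟨x, hx⟩ := hUne
  obtain ⟨y, hy⟩ := hVne
  obtain ⟨ε₁, hε₁, h1⟩ := Metric.isOpen_iff.1 hU x hx
  obtain ⟨ε₂, hε₂, h2⟩ := Metric.isOpen_iff.1 hV y hy
  obtain ⟨δ, hδ, h⟩ := hs.of_chain (lt_min hε₁ hε₂)
  obtain ⟨m, z, -, hz1, hz2⟩ := h x y (hc x y δ hδ)
  exact ⟨m, f^[m] z, ⟨z, h1 (lt_of_lt_of_le hz1 (min_le_left _ _)), rfl⟩,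
    h2 (lt_of_lt_of_le hz2 (min_le_right _ _))⟩

end

theorem specTransitive :
    ∀ (X : Type) [MetricSpace X] [CompactSpace X] (f : X ≃ₜ X),
      Shadowing f → ChainTransitive f → TopTransitive f :=
  fun _ _ _ _ hs hc => topTransitive_of_shadowing hs hc

end Pool.Agent.Lib.MP610fe3
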