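import Pool.Agent.Lib.MP_610fe3_an.Defs

/-!
# The abstract hyperbolic estimates
-/

open Set Filter Function
open scoped Topology

namespace Pool.Agent.Lib.MP610fe3

/-! ### Iterates of homeomorphisms -/

section Hpow

variable {X : Type*} [TopologicalSpace X]

/-- The iterate of a homeomorphism. -/
def hpow (f : X ≃ₜ X) : ℕ → X ≃ₜ X
  | 0 => Homeomorph.refl X
  | (k + 1) => f.trans (hpow f k)

theorem hpow_apply (f : X ≃ₜ X) (k : ℕ) (x : X) : hpow f k x = f^[k] x := by
  induction k generalizing x with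
  | zero => rfl
  | succ k ih => simp [hpow, ih]

theorem hpow_coe (f : X ≃ₜ X) (k : ℕ) : ⇑(hpow f k) = f^[k] := funext (hpow_apply f k)

theorem hpow_symm_apply (f : X ≃ₜ X) (k : ℕ) (x : X) :
    (hpow f k).symm x = f.symm^[k] x := by
  induction k with
  | zero => rfl
  | succ k ih =>
    rw [iterate_succ_apply', ← ih]
    simp [hpow]

theorem hpow_symm_coe (f : X ≃ₜ X) (k : ℕ) : ⇑(hpow f k).symm = f.symm^[k] :=
  funext (hpow_symm_apply f k)

end Hpow

section Abstract

variable {M W : Type*} [MetricSpace M] [NormedAddCommGroup W] [NormedSpace ℝ W]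

theorem Emb.dist_eq (E : Emb M W) (z x : M) : dist z x = ‖E.e z - E.e x‖ := by
  rw [← dist_eq_norm, E.isom.dist_eq]

theorem exists_norm_bound [CompactSpace M] {D : M → W →L[ℝ] W} (hD : Continuous D) :
    ∃ K : ℝ, 1 ≤ K ∧ ∀ x, ‖D x‖ ≤ K := by
  obtain ⟨C, hC⟩ := isCompact_univ.exists_bound_of_continuousOn hD.continuousOn
  exact ⟨max C 1, le_max_right _ _, fun x => (hC x (mem_univ x)).trans (le_max_left _ _)⟩

theorem exists_unif [CompactSpace M] {D : M → W →L[ℝ] W} (hD : Continuous D) {η : ℝ}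
    (hη : 0 < η) : ∃ r : ℝ, 0 < r ∧ ∀ x z, dist z x < r → ‖D z - D x‖ ≤ η := by
  have hu := CompactSpace.uniformContinuous_of_continuous hD
  obtain ⟨r, hr, h⟩ := Metric.uniformContinuous_iff.1 hu η hη
  refine ⟨r, hr, fun x z hxz => ?_⟩
  have := h hxz
  rw [dist_eq_norm] at this
  exact this.le

theorem HasD.comp [CompactSpace M] {E : Emb M W} {h h' : M → M} {D D' : M → W →L[ℝ] W}
    (hh : Continuous h) (H : HasD E h D) (H' : HasD E h' D') :
    HasD E (h' ∘ h) (fun x => D' (h x) ∘L D x) := by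
  obtain ⟨K, hK1, hK⟩ := exists_norm_bound H.cont
  obtain ⟨K', hK1', hK'⟩ := exists_norm_bound H'.cont
  refine ⟨?_, ?_, ?_, ?_⟩
  · exact (H'.cont.comp hh).clm_comp H.cont
  · intro x
    rw [ContinuousLinearMap.comp_assoc, H.right]
  · intro x
    rw [← ContinuousLinearMap.comp_assoc]
    have := H'.left (h x)
    rw [Function.comp_apply, this]
  · intro η hη
    set η₁ : ℝ := min 1 (η / (K + 1 + K')) with hη₁
    have hpos : 0 < K + 1 + K' := by linarith
    have hη₁pos : 0 < η₁ := lt_min one_pos (by positivity)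
    have hη₁1 : η₁ ≤ 1 := min_le_left _ _
    have hη₁2 : η₁ * (K + 1 + K') ≤ η := by
      have := min_le_right (1 : ℝ) (η / (K + 1 + K'))
      rw [← hη₁] at this
      rwa [le_div_iff₀ hpos] at this
    obtain ⟨r, hr, hA⟩ := H.approx η₁ hη₁pos
    obtain ⟨r', hr', hA'⟩ := H'.approx η₁ hη₁pos
    refine ⟨min r (r' / (K + 1)), lt_min hr (by positivity), fun x z hz => ?_⟩
    have hz1 : dist z x < r := hz.trans_le (min_le_left _ _)
    have hz2 : dist z x < r' / (K + 1) := hz.trans_le (min_le_right _ _)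
    have h1 := hA x z hz1
    have hd : dist (h z) (h x) ≤ (K + 1) * dist z x := by
      rw [E.dist_eq]
      calc ‖E.e (h z) - E.e (h x)‖
          = ‖(E.e (h z) - E.e (h x) - D x (E.e z - E.e x)) + D x (E.e z - E.e x)‖ := by
            congr 1; abel
        _ ≤ η₁ * dist z x + K * dist z x := by
            refine (norm_add_le _ _).trans (add_le_add h1 ?_)
            rw [E.dist_eq]
            exact (D x).le_of_opNorm_le (hK x) _
        _ ≤ (K + 1) * dist z x := by
            have : 0 ≤ dist z x := dist_nonneg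
            nlinarith
    have hd' : dist (h z) (h x) < r' := by
      have h3 : (K + 1) * dist z x < r' := by
        rwa [lt_div_iff₀' (by linarith : (0 : ℝ) < K + 1)] at hz2
      exact hd.trans_lt h3
    have h2 := hA' (h x) (h z) hd'
    have h0 : (0 : ℝ) ≤ dist z x := dist_nonneg
    calc ‖E.e ((h' ∘ h) z) - E.e ((h' ∘ h) x) - (D' (h x) ∘L D x) (E.e z - E.e x)‖
        = ‖(E.e (h' (h z)) - E.e (h' (h x)) - D' (h x) (E.e (h z) - E.e (h x)))
            + D' (h x) (E.e (h z) - E.e (h x) - D x (E.e z - E.e x))‖ := by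
          congr 1
          simp only [Function.comp_apply, ContinuousLinearMap.comp_apply, map_sub]
          abel
      _ ≤ η₁ * dist (h z) (h x) + K' * (η₁ * dist z x) := by
          refine (norm_add_le _ _).trans (add_le_add h2 ?_)
          refine ((D' (h x)).le_of_opNorm_le (hK' _) _).trans ?_
          exact mul_le_mul_of_nonneg_left h1 (by linarith)
      _ ≤ η₁ * ((K + 1) * dist z x) + K' * (η₁ * dist z x) := by gcongr
      _ = (η₁ * (K + 1 + K')) * dist z x := by ring
      _ ≤ η * dist z x := by gcongr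

theorem iterD_succ' (D : M → W →L[ℝ] W) (f : M → M) (k : ℕ) (x : M) :
    iterD D f (k + 1) x = D (f^[k] x) ∘L iterD D f k x := by
  induction k generalizing x with
  | zero => simp [iterD]
  | succ k ih =>
    rw [show iterD D f (k + 1 + 1) x = iterD D f (k + 1) (f x) ∘L D x from rfl, ih (f x)]
    rw [show iterD D f (k + 1) x = iterD D f k (f x) ∘L D x from rfl, iterate_succ_apply]
    rw [ContinuousLinearMap.comp_assoc]

theorem HasD.iter [CompactSpace M] {E : Emb M W} {f : M → M} {D : M → W →L[ℝ] W}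
    (hf : Continuous f) (H : HasD E f D) (k : ℕ) : HasD E (f^[k + 1]) (iterD D f (k + 1)) := by
  induction k with
  | zero =>
    have : iterD D f (0 + 1) = D := by
      funext x; simp [iterD]
    rw [this]
    simpa using H
  | succ k ih =>
    have h := HasD.comp hf H ih
    have h1 : f^[k + 1 + 1] = f^[k + 1] ∘ f := iterate_succ f (k + 1)
    rw [h1]
    exact h

namespace Split

variable {E : Emb M W} {f : M ≃ₜ M} (s : Split E f)

theorem DiS (x : M) : s.Di x ∘L s.S x = s.S (f.symm x) ∘L s.Di x := by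
  have h1 := s.DS (f.symm x)
  rw [f.apply_symm_apply] at h1
  have h2 : s.Di x ∘L s.D (f.symm x) = E.P (f.symm x) := by
    have := s.inv1 (f.symm x)
    rwa [f.apply_symm_apply] at this
  have h3 : s.S (f.symm x) = s.Di x ∘L s.S x ∘L s.D (f.symm x) := by
    rw [← h1, ← ContinuousLinearMap.comp_assoc, h2, s.PS]
  rw [h3, ContinuousLinearMap.comp_assoc, ContinuousLinearMap.comp_assoc, s.inv2 x, s.SP]

theorem DiU (x : M) : s.Di x ∘L s.U x = s.U (f.symm x) ∘L s.Di x := by
  have h1 := s.DU (f.symm x)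
  rw [f.apply_symm_apply] at h1
  have h2 : s.Di x ∘L s.D (f.symm x) = E.P (f.symm x) := by
    have := s.inv1 (f.symm x)
    rwa [f.apply_symm_apply] at this
  have h3 : s.U (f.symm x) = s.Di x ∘L s.U x ∘L s.D (f.symm x) := by
    rw [← h1, ← ContinuousLinearMap.comp_assoc, h2, s.PU]
  rw [h3, ContinuousLinearMap.comp_assoc, ContinuousLinearMap.comp_assoc, s.inv2 x, s.UP]

theorem iterDS (k : ℕ) (x : M) :
    iterD s.D f k x ∘L s.S x = s.S (f^[k] x) ∘L iterD s.D f k x := by
  induction k generalizing x with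
  | zero => simp [iterD]
  | succ k ih =>
    rw [show iterD s.D f (k + 1) x = iterD s.D f k (f x) ∘L s.D x from rfl,
      ContinuousLinearMap.comp_assoc, s.DS, ← ContinuousLinearMap.comp_assoc, ih,
      ContinuousLinearMap.comp_assoc, iterate_succ_apply]

theorem iterDU (k : ℕ) (x : M) :
    iterD s.D f k x ∘L s.U x = s.U (f^[k] x) ∘L iterD s.D f k x := by
  induction k generalizing x with
  | zero => simp [iterD]
  | succ k ih =>
    rw [show iterD s.D f (k + 1) x = iterD s.D f k (f x) ∘L s.D x from rfl,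
      ContinuousLinearMap.comp_assoc, s.DU, ← ContinuousLinearMap.comp_assoc, ih,
      ContinuousLinearMap.comp_assoc, iterate_succ_apply]

theorem iter_inv1 (k : ℕ) (x : M) :
    iterD s.Di f.symm (k + 1) (f^[k + 1] x) ∘L iterD s.D f (k + 1) x = E.P x := by
  induction k generalizing x with
  | zero =>
    simp only [iterD, zero_add, iterate_one, ContinuousLinearMap.id_comp]
    exact s.inv1 x
  | succ k ih =>
    rw [iterD_succ' s.D f (k + 1) x, iterate_succ_apply' f (k + 1) x]
    rw [show iterD s.Di f.symm (k + 1 + 1) (f (f^[k + 1] x))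
      = iterD s.Di f.symm (k + 1) (f.symm (f (f^[k + 1] x))) ∘L s.Di (f (f^[k + 1] x)) from rfl]
    rw [f.symm_apply_apply, ContinuousLinearMap.comp_assoc,
      ← ContinuousLinearMap.comp_assoc (s.Di _), s.inv1]
    have hl := iterD_succ' s.D f k x
    have : E.P (f^[k + 1] x) ∘L iterD s.D f (k + 1) x = iterD s.D f (k + 1) x := by
      rw [hl, ← ContinuousLinearMap.comp_assoc, iterate_succ_apply' f k x, s.hD.left]
    rw [this, ih]

theorem iter_inv2 (k : ℕ) (x : M) :
    iterD s.D f (k + 1) (f.symm^[k + 1] x) ∘L iterD s.Di f.symm (k + 1) x = E.P x := by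
  induction k generalizing x with
  | zero =>
    simp only [iterD, zero_add, iterate_one, ContinuousLinearMap.id_comp]
    exact s.inv2 x
  | succ k ih =>
    rw [iterD_succ' s.Di f.symm (k + 1) x, iterate_succ_apply' f.symm (k + 1) x]
    rw [show iterD s.D f (k + 1 + 1) (f.symm (f.symm^[k + 1] x))
      = iterD s.D f (k + 1) (f (f.symm (f.symm^[k + 1] x))) ∘L
        s.D (f.symm (f.symm^[k + 1] x)) from rfl]
    rw [f.apply_symm_apply, ContinuousLinearMap.comp_assoc,
      ← ContinuousLinearMap.comp_assoc (s.D _), s.inv2]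
    have hl := iterD_succ' s.Di f.symm k x
    have : E.P (f.symm^[k + 1] x) ∘L iterD s.Di f.symm (k + 1) x
        = iterD s.Di f.symm (k + 1) x := by
      rw [hl, ← ContinuousLinearMap.comp_assoc, iterate_succ_apply' f.symm k x, s.hDi.left]
    rw [this, ih]

/-- The split of an iterate. -/
def pow [CompactSpace M] (k : ℕ) : Split E (hpow f (k + 1)) where
  D := iterD s.D f (k + 1)
  Di := iterD s.Di f.symm (k + 1)
  hD := by
    rw [hpow_coe]
    exact HasD.iter f.continuous s.hD k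
  hDi := by
    rw [hpow_symm_coe]
    exact HasD.iter f.symm.continuous s.hDi k
  inv1 := fun x => by
    rw [hpow_apply]
    exact s.iter_inv1 k x
  inv2 := fun x => by
    rw [hpow_symm_apply]
    exact s.iter_inv2 k x
  S := s.S
  U := s.U
  add := s.add
  SS := s.SS
  UU := s.UU
  SU := s.SU
  US := s.US
  PS := s.PS
  SP := s.SP
  PU := s.PU
  UP := s.UP
  DS := fun x => by
    rw [hpow_apply]
    exact s.iterDS (k + 1) x
  DU := fun x => by
    rw [hpow_apply]
    exact s.iterDU (k + 1) x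
  bdd := s.bdd

/-- Strong hyperbolicity: one step contraction by a factor `θ`. -/
def Strong (θ : ℝ) : Prop :=
  ∀ (x : M) (w : W), ‖s.D x (s.S x w)‖ ≤ θ * ‖w‖ ∧ ‖s.Di x (s.U x w)‖ ≤ θ * ‖w‖

theorem exists_strong [CompactSpace M] (hs : s.Hyperbolic) {θ : ℝ} (hθ : 0 < θ) :
    ∃ k : ℕ, (s.pow k).Strong θ := by
  obtain ⟨C, l, hC, hl, hl1, H⟩ := hs
  have hlim : Tendsto (fun k : ℕ => C * l ^ (k + 1)) atTop (𝓝 (C * 0)) :=
    ((tendsto_pow_atTop_nhds_zero_of_lt_one hl.le hl1).comp (tendsto_add_atTop_nat 1)).const_mul C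
  rw [mul_zero] at hlim
  obtain ⟨k, hk⟩ := (hlim.eventually (gt_mem_nhds hθ)).exists
  refine ⟨k, fun x w => ⟨?_, ?_⟩⟩
  · exact ((H (k + 1) x w).1).trans (mul_le_mul_of_nonneg_right hk.le (norm_nonneg _))
  · exact ((H (k + 1) x w).2).trans (mul_le_mul_of_nonneg_right hk.le (norm_nonneg _))

theorem exists_bdd : ∃ K : ℝ, 1 ≤ K ∧ ∀ x, ‖s.S x‖ ≤ K ∧ ‖s.U x‖ ≤ K := by
  obtain ⟨K, hK⟩ := s.bdd
  exact ⟨max K 1, le_max_right _ _, fun x =>
    ⟨(hK x).1.trans (le_max_left _ _), (hK x).2.trans (le_max_left _ _)⟩⟩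

/-- The mixed terms `U x ∘ S z` are small if `z` is close to `x`. -/
theorem exists_mixed [CompactSpace M] (hs : s.Hyperbolic) {η : ℝ} (hη : 0 < η) :
    ∃ r : ℝ, 0 < r ∧ ∀ x z, dist z x < r →
      (∀ w, ‖s.U x (s.S z w)‖ ≤ η * ‖w‖) ∧ (∀ w, ‖s.S x (s.U z w)‖ ≤ η * ‖w‖) := by
  obtain ⟨K, hK1, hK⟩ := s.exists_bdd
  set θ : ℝ := min 1 (η / 2) with hθdef
  have hθ : 0 < θ := lt_min one_pos (by positivity)
  have hθ1 : θ ≤ 1 := min_le_left _ _
  have hθ2 : θ ≤ η / 2 := min_le_right _ _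
  obtain ⟨k, hk⟩ := s.exists_strong hs hθ
  set t := s.pow k with ht
  have hη' : 0 < η / (2 * K) := by positivity
  obtain ⟨r₁, hr₁, h₁⟩ := exists_unif t.hD.cont hη'
  obtain ⟨r₂, hr₂, h₂⟩ := exists_unif t.hDi.cont hη'
  refine ⟨min r₁ r₂, lt_min hr₁ hr₂, fun x z hz => ⟨fun w => ?_, fun w => ?_⟩⟩
  · have hz1 := h₁ x z (hz.trans_le (min_le_left _ _))
    -- `U x v = Di (F x) (U (F x) (D x v))`
    have key : ∀ v, s.U x v = t.Di (hpow f (k + 1) x) (t.U (hpow f (k + 1) x) (t.D x v)) := by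
      intro v
      have e1 : t.U (hpow f (k + 1) x) (t.D x v) = t.D x (t.U x v) := by
        have := congrArg (fun L => L v) (t.DU x)
        simpa using this.symm
      rw [e1]
      have e2 := congrArg (fun L => L (t.U x v)) (t.inv1 x)
      have e3 := congrArg (fun L => L v) (t.PU x)
      simp only [ContinuousLinearMap.comp_apply] at e2 e3
      rw [e2, e3]
      rfl
    rw [key]
    refine ((hk _ _).2).trans ?_
    have e4 : t.D x (s.S z w) = t.D z (t.S z w) - (t.D z - t.D x) (s.S z w) := by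
      have : t.S z w = s.S z w := rfl
      rw [this]; simp
    have e5 : ‖t.D x (s.S z w)‖ ≤ θ * ‖w‖ + η / (2 * K) * (K * ‖w‖) := by
      rw [e4]
      refine (norm_sub_le _ _).trans (add_le_add ((hk z w).1) ?_)
      refine ((t.D z - t.D x).le_of_opNorm_le hz1 _).trans ?_
      exact mul_le_mul_of_nonneg_left ((s.S z).le_of_opNorm_le (hK z).1 w) hη'.le
    have e6 : η / (2 * K) * (K * ‖w‖) = η / 2 * ‖w‖ := by
      field_simp
    rw [e6] at e5
    calc θ * ‖t.D x (s.S z w)‖ ≤ 1 * (θ * ‖w‖ + η / 2 * ‖w‖) := by gcongr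
      _ ≤ η * ‖w‖ := by nlinarith [norm_nonneg w]
  · have hz1 := h₂ x z (hz.trans_le (min_le_right _ _))
    have key : ∀ v, s.S x v
        = t.D ((hpow f (k + 1)).symm x) (t.S ((hpow f (k + 1)).symm x) (t.Di x v)) := by
      intro v
      have e1 : t.S ((hpow f (k + 1)).symm x) (t.Di x v) = t.Di x (t.S x v) := by
        have := congrArg (fun L => L v) (t.DiS x)
        simpa using this.symm
      rw [e1]
      have e2 := congrArg (fun L => L (t.S x v)) (t.inv2 x)
      have e3 := congrArg (fun L => L v) (t.PS x)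
      simp only [ContinuousLinearMap.comp_apply] at e2 e3
      rw [e2, e3]
      rfl
    rw [key]
    refine ((hk _ _).1).trans ?_
    have e4 : t.Di x (s.U z w) = t.Di z (t.U z w) - (t.Di z - t.Di x) (s.U z w) := by
      have : t.U z w = s.U z w := rfl
      rw [this]; simp
    have e5 : ‖t.Di x (s.U z w)‖ ≤ θ * ‖w‖ + η / (2 * K) * (K * ‖w‖) := by
      rw [e4]
      refine (norm_sub_le _ _).trans (add_le_add ((hk z w).2) ?_)
      refine ((t.Di z - t.Di x).le_of_opNorm_le hz1 _).trans ?_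
      exact mul_le_mul_of_nonneg_left ((s.U z).le_of_opNorm_le (hK z).2 w) hη'.le
    have e6 : η / (2 * K) * (K * ‖w‖) = η / 2 * ‖w‖ := by
      field_simp
    rw [e6] at e5
    calc θ * ‖t.Di x (s.U z w)‖ ≤ 1 * (θ * ‖w‖ + η / 2 * ‖w‖) := by gcongr
      _ ≤ η * ‖w‖ := by nlinarith [norm_nonneg w]

/-- Uniform continuity of the projections. -/
theorem exists_unifU [CompactSpace M] (hs : s.Hyperbolic) {η : ℝ} (hη : 0 < η) :
    ∃ r : ℝ, 0 < r ∧ ∀ x z, dist z x < r → ∀ w, ‖s.U z w - s.U x w‖ ≤ η * ‖w‖ := by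
  obtain ⟨K, hK1, hK⟩ := s.exists_bdd
  obtain ⟨r₁, hr₁, h₁⟩ := s.exists_mixed hs (show 0 < η / 4 by positivity)
  have hη' : 0 < η / (4 * K) := by positivity
  obtain ⟨r₂, hr₂, h₂⟩ := exists_unif E.contP hη'
  refine ⟨min r₁ r₂, lt_min hr₁ hr₂, fun x z hz w => ?_⟩
  have hz1 := h₁ x z (hz.trans_le (min_le_left _ _))
  have hz2 := h₂ x z (hz.trans_le (min_le_right _ _))
  have hid : s.U z w - s.U x w
      = s.S x (s.U z w) - s.U x (s.S z w) + ((E.P z - E.P x) (s.U z w))
        + s.U x ((E.P z - E.P x) w) := by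
    have a1 : s.U z w = E.P z (s.U z w) := by
      have := congrArg (fun L => L w) (s.PU z); simpa using this.symm
    have a2 : s.U x w = s.U x (E.P x w) := by
      have := congrArg (fun L => L w) (s.UP x); simpa using this.symm
    have a3 : E.P x (s.U z w) = s.S x (s.U z w) + s.U x (s.U z w) := by
      have := congrArg (fun L => L (s.U z w)) (s.add x); simpa using this.symm
    have a4 : E.P z w = s.S z w + s.U z w := by
      have := congrArg (fun L => L w) (s.add z); simpa using this.symm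
    have a5 : (E.P z - E.P x) (s.U z w) = s.U z w - (s.S x (s.U z w) + s.U x (s.U z w)) := by
      rw [ContinuousLinearMap.sub_apply, ← a1, a3]
    have a6 : s.U x ((E.P z - E.P x) w) = s.U x (s.S z w) + s.U x (s.U z w) - s.U x w := by
      rw [ContinuousLinearMap.sub_apply, map_sub, ← a2, a4, map_add]
    rw [a5, a6]
    abel
  have b1 : ‖(E.P z - E.P x) (s.U z w)‖ ≤ η / (4 * K) * (K * ‖w‖) := by
    refine ((E.P z - E.P x).le_of_opNorm_le hz2 _).trans ?_
    exact mul_le_mul_of_nonneg_left ((s.U z).le_of_opNorm_le (hK z).2 w) hη'.le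
  have b2 : ‖s.U x ((E.P z - E.P x) w)‖ ≤ K * (η / (4 * K) * ‖w‖) := by
    refine ((s.U x).le_of_opNorm_le (hK x).2 _).trans ?_
    exact mul_le_mul_of_nonneg_left ((E.P z - E.P x).le_of_opNorm_le hz2 w) (by linarith)
  have c1 : η / (4 * K) * (K * ‖w‖) = η / 4 * ‖w‖ := by field_simp
  have c2 : K * (η / (4 * K) * ‖w‖) = η / 4 * ‖w‖ := by field_simp
  rw [c1] at b1
  rw [c2] at b2
  rw [hid]
  calc _ ≤ ‖s.S x (s.U z w)‖ + ‖s.U x (s.S z w)‖ + ‖(E.P z - E.P x) (s.U z w)‖
        + ‖s.U x ((E.P z - E.P x) w)‖ := by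
        refine (norm_add_le _ _).trans (add_le_add ((norm_add_le _ _).trans
          (add_le_add (norm_sub_le _ _) le_rfl)) le_rfl)
    _ ≤ η / 4 * ‖w‖ + η / 4 * ‖w‖ + η / 4 * ‖w‖ + η / 4 * ‖w‖ :=
        add_le_add (add_le_add (add_le_add (hz1.2 w) (hz1.1 w)) b1) b2
    _ = η * ‖w‖ := by ring

end Split

end Abstract

end Pool.Agent.Lib.MP610fe3
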