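import Pool.Agent.Lib.MP_610fe3_an.TopC

/-!
# The chain theorem for all members of the chain
-/

open Set Filter Function
open scoped Topology

namespace Pool.Agent.Lib.MP610fe3

variable {X : Type*} [MetricSpace X] [CompactSpace X]

/-- Dense periodic points and connectedness give chain transitivity. -/
theorem chainTransitive_of_Om [ConnectedSpace X] {f : X ≃ₜ X} (hexp : Expansive f)
    (hsh : Shadowing f) (hOm : Om f = univ) : ChainTransitive f := by
  obtain ⟨c, hc0, hc⟩ : ∃ c, 0 < c ∧ ExpConst f c := hexp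
  obtain ⟨δ, hδ, hreach⟩ := exists_reach hc0 hc hsh
  intro x y
  have hclose : ∀ w w' : X, dist w w' < δ → Reach f w w' :=
    fun w w' h => hreach w (by rw [hOm]; trivial) w' (by rw [hOm]; trivial) h
  have hcl : IsClopen {w | Reach f w y} := by
    constructor
    · apply isClosed_of_closure_subset
      intro w hw
      obtain ⟨w', hw', hd⟩ := Metric.mem_closure_iff.1 hw δ hδ
      exact (hclose w w' hd).trans hw'
    · rw [Metric.isOpen_iff]
      intro w hw
      exact ⟨δ, hδ, fun w' hw' => (hclose w' w hw').trans hw⟩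
  have huniv := hcl.eq_univ ⟨y, hclose y y (by rwa [dist_self])⟩
  have hx : x ∈ {w | Reach f w y} := by rw [huniv]; trivial
  exact hx

/-- All members of the chain are chain transitive. -/
theorem chain_theorem_all [ConnectedSpace X] (k : ℕ) (g : ℕ → X ≃ₜ X)
    (hexp : ∀ i ≤ k, Expansive (g i)) (hsh : ∀ i ≤ k, Shadowing (g i))
    (hcomm : ∀ i < k, ∀ x, g i (g (i + 1) x) = g (i + 1) (g i x))
    (hnest : ∀ i < k, (∀ x y, FwdAsymp (g i) x y → FwdAsymp (g (i + 1)) x y) ∨
      (∀ x y, FwdAsymp (g (i + 1)) x y → FwdAsymp (g i) x y))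
    (hend : ∀ x, g k (g 0 x) = x) : ∀ i ≤ k, ChainTransitive (g i) := by
  have h0 := chain_theorem k g hexp hsh hcomm hnest hend
  have hexp' : ∀ i ≤ k, ∃ c, 0 < c ∧ ExpConst (g i) c := hexp
  choose! c hc0 hc using hexp'
  have hOm : ∀ i ≤ k, Om (g i) = univ := by
    intro i
    induction i with
    | zero =>
      intro h
      exact eq_univ_of_forall fun x => mem_closure_of_reach (hc0 0 h) (hc 0 h) (hsh 0 h) (h0 x x)
    | succ i ih =>
      intro hi
      rw [← ih (by omega)]
      exact (Om_eq (hc0 i (by omega)) (hc i (by omega)) (hc0 _ hi) (hc _ hi)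
        (hcomm i (by omega))).symm
  exact fun i hi => chainTransitive_of_Om (hexp i hi) (hsh i hi) (hOm i hi)

end Pool.Agent.Lib.MP610fe3
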