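import Pool.Agent.Lib.MP_610fe3_an.Abstract

/-!
# Pairs of orbits that stay close, and nested stable sets
-/

open Set Filter Function
open scoped Topology

namespace Pool.Agent.Lib.MP610fe3

/-! ### Two lemmas on real sequences -/

theorem real_decay {d : ℕ → ℝ} {r : ℝ} (h0 : ∀ k, 0 ≤ d k) (hr : ∀ k, d k ≤ r)
    (h : ∀ k, d (k + 1) ≤ (d k + d (k + 2)) / 4) (k : ℕ) : d k ≤ d 0 / 2 ^ k := by
  have hr0 : 0 ≤ r := (h0 0).trans (hr 0)
  have c1 : ∀ m k, d k ≤ max (d 0) (r / 2 ^ m) := by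
    intro m
    induction m with
    | zero => intro k; simpa using Or.inr (hr k)
    | succ m ih =>
      intro k
      rcases k with _ | k
      · exact le_max_left _ _
      · have h1 := ih k
        have h2 := ih (k + 2)
        have h3 := h k
        have h4 : max (d 0) (r / 2 ^ m) / 2 ≤ max (d 0) (r / 2 ^ (m + 1)) := by
          rcases le_total (d 0) (r / 2 ^ m) with hh | hh
          · rw [max_eq_right hh]
            refine le_trans (le_of_eq ?_) (le_max_right _ _)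
            rw [pow_succ]; field_simp
          · rw [max_eq_left hh]
            exact le_trans (by linarith [h0 0]) (le_max_left _ _)
        linarith
  have c2 : ∀ k, d k ≤ d 0 := by
    intro k
    have hlim : Tendsto (fun m : ℕ => r / 2 ^ m) atTop (𝓝 0) := by
      have h5 := (tendsto_pow_atTop_nhds_zero_of_lt_one (r := (1 / 2 : ℝ)) (by norm_num)
        (by norm_num)).const_mul r
      rw [mul_zero] at h5
      refine h5.congr (fun m => ?_)
      rw [one_div, inv_pow, div_eq_mul_inv]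
    have hlim2 : Tendsto (fun m : ℕ => max (d 0) (r / 2 ^ m)) atTop (𝓝 (max (d 0) 0)) :=
      tendsto_const_nhds.max hlim
    have := ge_of_tendsto' hlim2 (fun m => c1 m k)
    rwa [max_eq_left (h0 0)] at this
  have c3 : ∀ m k, m ≤ k → d k ≤ d 0 / 2 ^ m := by
    intro m
    induction m with
    | zero => intro k _; simpa using c2 k
    | succ m ih =>
      intro k hk
      obtain ⟨j, rfl⟩ : ∃ j, k = j + 1 := ⟨k - 1, by omega⟩
      have h1 := ih j (by omega)
      have h2 := ih (j + 2) (by omega)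
      have h3 := h j
      have : d 0 / 2 ^ (m + 1) = d 0 / 2 ^ m / 2 := by rw [pow_succ]; field_simp
      rw [this]
      linarith
  exact c3 k k le_rfl

theorem real_interval {d : ℕ → ℝ} {r : ℝ} {n : ℕ} (h0 : ∀ k ≤ n, 0 ≤ d k)
    (hr : ∀ k ≤ n, d k ≤ r) (h : ∀ k, k + 2 ≤ n → d (k + 1) ≤ (d k + d (k + 2)) / 4)
    (k : ℕ) (hk : k ≤ n) : d k ≤ r * (1 / 2 ^ k + 1 / 2 ^ (n - k)) := by
  have hr0 : 0 ≤ r := (h0 0 (Nat.zero_le _)).trans (hr 0 (Nat.zero_le _))
  set c : ℕ → ℝ := fun k => r * (1 / 2 ^ k + 1 / 2 ^ (n - k)) with hc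
  obtain ⟨j, hj, hjmax⟩ := Finset.exists_max_image (Finset.range (n + 1)) (fun k => d k - c k)
    ⟨0, by simp⟩
  have hjn : j ≤ n := by simpa [Nat.lt_succ_iff] using hj
  suffices hh : d j - c j ≤ 0 by
    have := hjmax k (by simpa [Nat.lt_succ_iff] using hk)
    linarith
  by_contra hneg
  push Not at hneg
  have hpow : ∀ m : ℕ, (0 : ℝ) < 1 / 2 ^ m := fun m => by positivity
  rcases Nat.eq_zero_or_pos j with rfl | hjpos
  · have : r ≤ c 0 := by
      simp only [hc, pow_zero, div_one]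
      nlinarith [hpow (n - 0)]
    linarith [hr 0 (Nat.zero_le _)]
  rcases eq_or_lt_of_le hjn with rfl | hjlt
  · have : r ≤ c j := by
      simp only [hc, Nat.sub_self, pow_zero, div_one]
      nlinarith [hpow j]
    linarith [hr j le_rfl]
  obtain ⟨i, rfl⟩ : ∃ i, j = i + 1 := ⟨j - 1, by omega⟩
  have h1 := h i (by omega)
  have h2 := hjmax i (by simp; omega)
  have h3 := hjmax (i + 2) (by simp; omega)
  have h4 : c i + c (i + 2) ≤ 4 * c (i + 1) := by
    obtain ⟨q, hq⟩ : ∃ q, n = i + 2 + q := ⟨n - (i + 2), by omega⟩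
    have e1 : n - i = q + 2 := by omega
    have e2 : n - (i + 1) = q + 1 := by omega
    have e3 : n - (i + 2) = q := by omega
    simp only [hc, e1, e2, e3]
    have p1 : (1 : ℝ) / 2 ^ (i + 2) = 1 / 2 ^ i / 4 := by rw [pow_add]; field_simp; norm_num
    have p2 : (1 : ℝ) / 2 ^ (i + 1) = 1 / 2 ^ i / 2 := by rw [pow_add]; field_simp
    have p3 : (1 : ℝ) / 2 ^ (q + 2) = 1 / 2 ^ q / 4 := by rw [pow_add]; field_simp; norm_num
    have p4 : (1 : ℝ) / 2 ^ (q + 1) = 1 / 2 ^ q / 2 := by rw [pow_add]; field_simp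
    rw [p1, p2, p3, p4]
    have a1 := hpow i
    have a2 := hpow q
    nlinarith [mul_nonneg hr0 a1.le, mul_nonneg hr0 a2.le]
  linarith

section Abstract

variable {M W : Type*} [MetricSpace M] [NormedAddCommGroup W] [NormedSpace ℝ W]
  {E : Emb M W} {f : M ≃ₜ M}

namespace Split

variable (s : Split E f)

/-- One step estimates for pairs of close points. -/
theorem exists_step {θ K η : ℝ} (hK : ∀ x, ‖s.S x‖ ≤ K ∧ ‖s.U x‖ ≤ K) (hK1 : 1 ≤ K)
    (hst : s.Strong θ) (hη : 0 < η) :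
    ∃ r : ℝ, 0 < r ∧ ∀ x z, dist z x < r → dist (f z) (f x) < r →
      ‖s.S (f x) (E.e (f z) - E.e (f x))‖ ≤ (θ + K * η) * dist z x ∧
      ‖s.U x (E.e z - E.e x)‖ ≤ (θ + K * η) * dist (f z) (f x) ∧
      dist z x ≤ ‖s.S x (E.e z - E.e x)‖ + ‖s.U x (E.e z - E.e x)‖ + η * dist z x := by
  obtain ⟨r₁, hr₁, h₁⟩ := s.hD.approx η hη
  obtain ⟨r₂, hr₂, h₂⟩ := s.hDi.approx η hη
  obtain ⟨r₃, hr₃, h₃⟩ := E.tangent η hη
  refine ⟨min r₁ (min r₂ r₃), lt_min hr₁ (lt_min hr₂ hr₃), fun x z hz hfz => ⟨?_, ?_, ?_⟩⟩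
  · have hz1 := h₁ x z (hz.trans_le (min_le_left _ _))
    have e1 : s.S (f x) (s.D x (E.e z - E.e x)) = s.D x (s.S x (E.e z - E.e x)) := by
      have := congrArg (fun L => L (E.e z - E.e x)) (s.DS x)
      simpa using this.symm
    have e2 : s.S (f x) (E.e (f z) - E.e (f x)) = s.D x (s.S x (E.e z - E.e x))
        + s.S (f x) (E.e (f z) - E.e (f x) - s.D x (E.e z - E.e x)) := by
      rw [← e1, ← map_add]; congr 1; abel
    rw [e2]
    refine (norm_add_le _ _).trans ?_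
    have e3 := (hst x (E.e z - E.e x)).1
    rw [← E.dist_eq] at e3
    have e4 := (s.S (f x)).le_of_opNorm_le (hK (f x)).1
      (E.e (f z) - E.e (f x) - s.D x (E.e z - E.e x))
    have e5 : K * ‖E.e (f z) - E.e (f x) - s.D x (E.e z - E.e x)‖ ≤ K * (η * dist z x) :=
      mul_le_mul_of_nonneg_left hz1 (by linarith)
    linarith
  · have hz2 := h₂ (f x) (f z) (hfz.trans_le ((min_le_right _ _).trans (min_le_left _ _)))
    rw [f.symm_apply_apply, f.symm_apply_apply] at hz2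
    have e1 : s.U x (s.Di (f x) (E.e (f z) - E.e (f x)))
        = s.Di (f x) (s.U (f x) (E.e (f z) - E.e (f x))) := by
      have := congrArg (fun L => L (E.e (f z) - E.e (f x))) (s.DiU (f x))
      rw [f.symm_apply_apply] at this
      simpa using this.symm
    have e2 : s.U x (E.e z - E.e x) = s.Di (f x) (s.U (f x) (E.e (f z) - E.e (f x)))
        + s.U x (E.e z - E.e x - s.Di (f x) (E.e (f z) - E.e (f x))) := by
      rw [← e1, ← map_add]; congr 1; abel
    rw [e2]
    refine (norm_add_le _ _).trans ?_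
    have e3 := (hst (f x) (E.e (f z) - E.e (f x))).2
    rw [← E.dist_eq] at e3
    have e4 := (s.U x).le_of_opNorm_le (hK x).2
      (E.e z - E.e x - s.Di (f x) (E.e (f z) - E.e (f x)))
    have e5 : K * ‖E.e z - E.e x - s.Di (f x) (E.e (f z) - E.e (f x))‖
        ≤ K * (η * dist (f z) (f x)) :=
      mul_le_mul_of_nonneg_left hz2 (by linarith)
    linarith
  · have hz3 := h₃ x z (hz.trans_le ((min_le_right _ _).trans (min_le_right _ _)))
    have e1 : E.P x (E.e z - E.e x) = s.S x (E.e z - E.e x) + s.U x (E.e z - E.e x) := by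
      have := congrArg (fun L => L (E.e z - E.e x)) (s.add x)
      simpa using this.symm
    have e2 : E.e z - E.e x = (s.S x (E.e z - E.e x) + s.U x (E.e z - E.e x))
        + (E.e z - E.e x - E.P x (E.e z - E.e x)) := by
      rw [← e1]; abel
    calc dist z x = ‖E.e z - E.e x‖ := E.dist_eq z x
      _ ≤ ‖s.S x (E.e z - E.e x) + s.U x (E.e z - E.e x)‖
          + ‖E.e z - E.e x - E.P x (E.e z - E.e x)‖ := by
          conv_lhs => rw [e2]
          exact norm_add_le _ _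
      _ ≤ _ := add_le_add (norm_add_le _ _) hz3

/-- For every `ρ > 0` some iterate satisfies one step estimates with factor `ρ`. -/
theorem exists_step' [CompactSpace M] (hs : s.Hyperbolic) {ρ : ℝ} (hρ : 0 < ρ) :
    ∃ (k : ℕ) (r : ℝ), 0 < r ∧ ∀ x z, dist z x < r →
      dist (f^[k + 1] z) (f^[k + 1] x) < r →
      ‖s.S (f^[k + 1] x) (E.e (f^[k + 1] z) - E.e (f^[k + 1] x))‖ ≤ ρ * dist z x ∧
      ‖s.U x (E.e z - E.e x)‖ ≤ ρ * dist (f^[k + 1] z) (f^[k + 1] x) ∧
      dist z x ≤ 4 / 3 * (‖s.S x (E.e z - E.e x)‖ + ‖s.U x (E.e z - E.e x)‖) := by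
  obtain ⟨K, hK1, hK⟩ := s.exists_bdd
  obtain ⟨k, hk⟩ := s.exists_strong hs (show 0 < ρ / 2 by positivity)
  set η : ℝ := min (1 / 4) (ρ / (2 * K)) with hη
  have hηpos : 0 < η := lt_min (by norm_num) (by positivity)
  have hη4 : η ≤ 1 / 4 := min_le_left _ _
  have hη2 : K * η ≤ ρ / 2 := by
    have h1 : η ≤ ρ / (2 * K) := min_le_right _ _
    calc K * η ≤ K * (ρ / (2 * K)) := mul_le_mul_of_nonneg_left h1 (by linarith)
      _ = ρ / 2 := by field_simp
  obtain ⟨r, hr, h⟩ := (s.pow k).exists_step hK hK1 hk hηpos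
  refine ⟨k, r, hr, fun x z hz hfz => ?_⟩
  have h' := h x z hz (by rw [hpow_apply, hpow_apply]; exact hfz)
  rw [hpow_apply, hpow_apply] at h'
  obtain ⟨h1, h2, h3⟩ := h'
  have hd : 0 ≤ dist z x := dist_nonneg
  have hd' : 0 ≤ dist (f^[k + 1] z) (f^[k + 1] x) := dist_nonneg
  refine ⟨?_, ?_, ?_⟩
  · refine le_trans h1 ?_
    nlinarith
  · refine le_trans h2 ?_
    nlinarith
  · change dist z x ≤ ‖s.S x (E.e z - E.e x)‖ + ‖s.U x (E.e z - E.e x)‖ + η * dist z x at h3
    nlinarith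

/-- The three term inequality for distances of pairs of orbits of an iterate. -/
theorem exists_triple [CompactSpace M] (hs : s.Hyperbolic) {ρ : ℝ} (hρ : 0 < ρ)
    (hρ8 : ρ ≤ 1 / 8) :
    ∃ (k : ℕ) (r : ℝ), 0 < r ∧
      (∀ x z, dist z x < r → dist (f^[k + 1] z) (f^[k + 1] x) < r →
        ‖s.U x (E.e z - E.e x)‖ ≤ ρ * dist (f^[k + 1] z) (f^[k + 1] x)) ∧
      ∀ x z, dist z x < r → dist (f^[k + 1] z) (f^[k + 1] x) < r →
        dist (f^[k + 1] (f^[k + 1] z)) (f^[k + 1] (f^[k + 1] x)) < r →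
        dist (f^[k + 1] z) (f^[k + 1] x)
          ≤ (dist z x + dist (f^[k + 1] (f^[k + 1] z)) (f^[k + 1] (f^[k + 1] x))) / 4 := by
  obtain ⟨k, r, hr, h⟩ := s.exists_step' hs hρ
  refine ⟨k, r, hr, fun x z hz hfz => (h x z hz hfz).2.1, fun x z h0 h1 h2 => ?_⟩
  have a := h x z h0 h1
  have b := h (f^[k + 1] x) (f^[k + 1] z) h1 h2
  have hd : 0 ≤ dist z x := dist_nonneg
  have hd' : 0 ≤ dist (f^[k + 1] (f^[k + 1] z)) (f^[k + 1] (f^[k + 1] x)) := dist_nonneg
  nlinarith [a.1, b.2.1, b.2.2]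

/-- Two-sided expansivity. -/
theorem expansive_aux [CompactSpace M] (hs : s.Hyperbolic) :
    ∃ (k : ℕ) (r : ℝ), 0 < r ∧ ∀ x z : ℤ → M, (∀ i, f^[k + 1] (x i) = x (i + 1)) →
      (∀ i, f^[k + 1] (z i) = z (i + 1)) → (∀ i, dist (z i) (x i) < r) → ∀ i, z i = x i := by
  obtain ⟨k, r, hr, -, h⟩ := s.exists_triple hs (show (0 : ℝ) < 1 / 8 by norm_num) le_rfl
  refine ⟨k, r, hr, fun x z hx hz hd => ?_⟩
  have hhalf : ∀ m : ℕ, ∀ i, dist (z i) (x i) ≤ r / 2 ^ m := by
    intro m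
    induction m with
    | zero => intro i; simpa using (hd i).le
    | succ m ih =>
      intro i
      have h1 := h (x (i - 1)) (z (i - 1)) (hd _)
      rw [hx, hz, sub_add_cancel, hx, hz] at h1
      have h2 := h1 (hd _) (hd _)
      have e : r / 2 ^ (m + 1) = r / 2 ^ m / 2 := by rw [pow_succ]; field_simp
      rw [e]
      linarith [ih (i - 1), ih (i + 1)]
  intro i
  have hlim : Tendsto (fun m : ℕ => r / 2 ^ m) atTop (𝓝 0) := by
    have h5 := (tendsto_pow_atTop_nhds_zero_of_lt_one (r := (1 / 2 : ℝ)) (by norm_num)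
      (by norm_num)).const_mul r
    rw [mul_zero] at h5
    refine h5.congr (fun m => ?_)
    rw [one_div, inv_pow, div_eq_mul_inv]
  have h0 := ge_of_tendsto' hlim (fun m => hhalf m i)
  exact dist_le_zero.1 h0

/-- Pairs that stay close in the future: exponential contraction and small unstable component. -/
theorem exists_forward [CompactSpace M] (hs : s.Hyperbolic) {ρ : ℝ} (hρ : 0 < ρ)
    (hρ8 : ρ ≤ 1 / 8) :
    ∃ (k : ℕ) (r : ℝ), 0 < r ∧ ∀ x z, (∀ m, dist (f^[m] z) (f^[m] x) < r) →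
      ‖s.U x (E.e z - E.e x)‖ ≤ ρ * dist z x ∧
      ∀ m, dist (f^[(k + 1) * m] z) (f^[(k + 1) * m] x) ≤ dist z x / 2 ^ m := by
  obtain ⟨k, r, hr, hU, h⟩ := s.exists_triple hs hρ hρ8
  refine ⟨k, r, hr, fun x z hd => ?_⟩
  have hdec : ∀ m, dist (f^[(k + 1) * m] z) (f^[(k + 1) * m] x) ≤ dist z x / 2 ^ m := by
    intro m
    have := real_decay (d := fun m => dist (f^[(k + 1) * m] z) (f^[(k + 1) * m] x)) (r := r)
      (fun m => dist_nonneg) (fun m => (hd _).le) (fun m => ?_) m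
    · simpa using this
    · have e1 : ∀ y, f^[(k + 1) * (m + 1)] y = f^[k + 1] (f^[(k + 1) * m] y) := by
        intro y
        rw [← iterate_add_apply]; congr 1; congr 1; ring
      have e2 : ∀ y, f^[(k + 1) * (m + 2)] y = f^[k + 1] (f^[k + 1] (f^[(k + 1) * m] y)) := by
        intro y
        rw [← iterate_add_apply, ← iterate_add_apply]; congr 1; congr 1; ring
      have h1 := h (f^[(k + 1) * m] x) (f^[(k + 1) * m] z) (hd _)
        (by rw [← e1, ← e1]; exact hd _) (by rw [← e2, ← e2]; exact hd _)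
      simp only [e1, e2]
      exact h1
  refine ⟨?_, hdec⟩
  have h1 := hU x z (hd 0) (hd (k + 1))
  have h2 := hdec 1
  rw [mul_one] at h2
  have h3 : dist (f^[k + 1] z) (f^[k + 1] x) ≤ dist z x := by
    refine h2.trans ?_
    have : (0 : ℝ) ≤ dist z x := dist_nonneg
    norm_num
  exact h1.trans (mul_le_mul_of_nonneg_left h3 hρ.le)

end Split

end Abstract

end Pool.Agent.Lib.MP610fe3
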