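import Pool.Agent.Lib.MP_610fe3_an.TopA

/-!
# Expansive homeomorphisms with shadowing: the closure of the periodic points
-/

open Set Filter Function
open scoped Topology

namespace Pool.Agent.Lib.MP610fe3

section Omega

variable {X : Type*} [MetricSpace X] {f : X ≃ₜ X}

theorem iterate_mem_periodic {p : X} (hp : p ∈ periodicPts f) (k : ℕ) :
    f^[k] p ∈ periodicPts f := by
  obtain ⟨m, hm, h⟩ := hp
  refine ⟨m, hm, ?_⟩
  have h1 : f^[m] p = p := h
  have h2 : f^[m] (f^[k] p) = f^[k] (f^[m] p) := by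
    rw [← iterate_add_apply, ← iterate_add_apply, add_comm]
  rw [h1] at h2
  exact h2

theorem symm_mem_periodic {p : X} (hp : p ∈ periodicPts f) : f.symm p ∈ periodicPts f := by
  obtain ⟨m, hm, h⟩ := hp
  refine ⟨m, hm, ?_⟩
  have h1 : f^[m] p = p := h
  have h2 : f (f^[m] (f.symm p)) = f (f.symm p) := by
    rw [← iterate_succ_apply' f m, iterate_succ_apply, f.apply_symm_apply, h1]
  exact f.injective h2

theorem symm_iterate_mem_periodic {p : X} (hp : p ∈ periodicPts f) (k : ℕ) :
    f.symm^[k] p ∈ periodicPts f := by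
  induction k with
  | zero => exact hp
  | succ k ih => rw [iterate_succ_apply']; exact symm_mem_periodic ih

/-- The closure of the set of periodic points. -/
def Om (f : X ≃ₜ X) : Set X := closure (periodicPts f)

theorem isClosed_Om (f : X ≃ₜ X) : IsClosed (Om f) := isClosed_closure

theorem iterate_mem_Om {y : X} (hy : y ∈ Om f) (k : ℕ) : f^[k] y ∈ Om f :=
  map_mem_closure (f.continuous.iterate k) hy (fun _ hp => iterate_mem_periodic hp k)

theorem symm_iterate_mem_Om {y : X} (hy : y ∈ Om f) (k : ℕ) : f.symm^[k] y ∈ Om f :=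
  map_mem_closure (f.symm.continuous.iterate k) hy (fun _ hp => symm_iterate_mem_periodic hp k)

/-- Points of `Om f` are chain recurrent, and reach is reversible along orbits. -/
theorem reach_of_mem_Om {y : X} (hy : y ∈ Om f) (k : ℕ) : Reach f (f^[k] y) y := by
  apply reach_of_approx f.continuous
  intro r hr
  obtain ⟨r', hr', h'⟩ := Metric.continuous_iff.1 (f.continuous.iterate k) y r hr
  obtain ⟨p, hp, hyp⟩ := Metric.mem_closure_iff.1 hy (min r r') (lt_min hr hr')
  rw [dist_comm] at hyp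
  exact ⟨f^[k] p, p, h' p (hyp.trans_le (min_le_right _ _)), hyp.trans_le (min_le_left _ _),
    reach_periodic hp k⟩

theorem reach_self_of_mem_Om {y : X} (hy : y ∈ Om f) : Reach f y y := reach_of_mem_Om hy 0

/-- A point forward asymptotic to `y ∈ Om f` reaches `y`. -/
theorem reach_of_fwdAsymp {x y : X} (hy : y ∈ Om f) (h : FwdAsymp f x y) : Reach f x y := by
  intro ε hε
  obtain ⟨n, hn⟩ := (Metric.tendsto_atTop.1 h) (ε / 3) (by positivity)
  have h1 := hn (n + 1) (by omega)
  rw [Real.dist_0_eq_abs, abs_of_nonneg dist_nonneg] at h1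
  have h2 := (chain_iterate (f := f) (show 0 < ε / 3 by positivity) x (Nat.succ_pos n)).last h1
  exact (h2.trans ((reach_of_mem_Om hy (n + 1)) _ (by positivity))).mono (by linarith)

/-- `y ∈ Om f` reaches every point which is backward asymptotic to `y`. -/
theorem reach_of_bwdAsymp {x y : X} (hy : y ∈ Om f) (h : FwdAsymp f.symm x y) : Reach f y x := by
  intro ε hε
  have h0 : Tendsto (fun k : ℕ => dist (f.symm^[k] x) (f.symm^[k] y)) atTop (𝓝 0) := h
  -- distances after applying `f` once more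
  have hlim : Tendsto (fun k : ℕ => dist (f (f.symm^[k + 1] x)) (f (f.symm^[k + 1] y))) atTop
      (𝓝 0) := by
    refine h0.congr (fun k => ?_)
    rw [iterate_succ_apply', iterate_succ_apply', f.apply_symm_apply, f.apply_symm_apply]
  obtain ⟨n, hn⟩ := (Metric.tendsto_atTop.1 hlim) (ε / 3) (by positivity)
  have h1 := hn n le_rfl
  rw [Real.dist_0_eq_abs, abs_of_nonneg dist_nonneg, dist_comm] at h1
  have h2 := chain_iterate (f := f) (show 0 < ε / 3 by positivity) (f.symm^[n + 1] x)
    (Nat.succ_pos n)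
  have h3 : f^[n + 1] (f.symm^[n + 1] x) = x :=
    (Function.RightInverse.iterate f.apply_symm_apply (n + 1)) x
  rw [h3] at h2
  have h4 := h2.first h1
  -- from `y` to `f.symm^[n+1] y`
  have h5 : Reach f y (f.symm^[n + 1] y) := by
    have h6 := reach_of_mem_Om (symm_iterate_mem_Om hy (n + 1)) (n + 1)
    have h7 : f^[n + 1] (f.symm^[n + 1] y) = y :=
      (Function.RightInverse.iterate f.apply_symm_apply (n + 1)) y
    rwa [h7] at h6
  exact ((h5 _ (by positivity)).trans h4).mono (by linarith)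

variable [CompactSpace X]

/-- Close points of `Om f` reach each other. -/
theorem exists_reach {c : ℝ} (hc0 : 0 < c) (hc : ExpConst f c) (hsh : Shadowing f) :
    ∃ δ : ℝ, 0 < δ ∧ ∀ y ∈ Om f, ∀ y' ∈ Om f, dist y y' < δ → Reach f y y' := by
  obtain ⟨δ, hδ, hb⟩ := bracket hc0 hc hsh
  refine ⟨δ / 2, by positivity, fun y hy y' hy' hd => ?_⟩
  apply reach_of_approx f.continuous
  intro r hr
  have hm : 0 < min r (δ / 4) := lt_min hr (by positivity)
  obtain ⟨p, hp, hyp⟩ := Metric.mem_closure_iff.1 hy _ hm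
  obtain ⟨q, hq, hyq⟩ := Metric.mem_closure_iff.1 hy' _ hm
  rw [dist_comm] at hyp hyq
  refine ⟨p, q, hyp.trans_le (min_le_left _ _), hyq.trans_le (min_le_left _ _), ?_⟩
  have h1 : dist p q < δ := by
    have h2 := hyp.trans_le (min_le_right _ _)
    have h3 := hyq.trans_le (min_le_right _ _)
    have h4 := dist_triangle4 p y y' q
    rw [dist_comm y' q] at h4
    linarith
  obtain ⟨z, hz1, hz2⟩ := hb p q h1
  exact (reach_of_bwdAsymp (subset_closure hp) hz1).trans
    (reach_of_fwdAsymp (subset_closure hq) hz2)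

/-- Forward orbits converge to `Om f`. -/
theorem exists_near {c : ℝ} (hc0 : 0 < c) (hc : ExpConst f c) (hsh : Shadowing f) (x : X)
    {δ : ℝ} (hδ : 0 < δ) : ∃ n₀ : ℕ, ∀ n ≥ n₀, ∃ z ∈ Om f, dist (f^[n] x) z < δ := by
  by_contra hnot
  push Not at hnot
  have hfreq : ∀ N, ∃ n > N, ∀ z ∈ Om f, δ ≤ dist (f^[n] x) z := by
    intro N
    obtain ⟨n, hn, h⟩ := hnot (N + 1)
    exact ⟨n, by omega, h⟩
  obtain ⟨φ, hφ, hφd⟩ := Nat.exists_strictMono_subsequence hfreq
  obtain ⟨w, -, ψ, hψ, hlim⟩ := (isCompact_univ (X := X)).tendsto_subseq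
    (x := fun k => f^[φ k] x) (fun _ => mem_univ _)
  have hw : w ∉ Om f := by
    intro hw
    have h1 : Tendsto (fun k => dist (f^[φ (ψ k)] x) w) atTop (𝓝 0) :=
      tendsto_iff_dist_tendsto_zero.1 hlim
    have h2 := ge_of_tendsto' h1 (fun k => hφd (ψ k) w hw)
    linarith
  apply hw
  apply mem_closure_of_reach hc0 hc hsh
  apply fun h => h
  intro ε hε
  obtain ⟨r₁, hr₁, h₁⟩ := Metric.continuous_iff.1 f.continuous w (ε / 3) (by positivity)
  obtain ⟨N, hN⟩ := (Metric.tendsto_atTop.1 hlim) (min r₁ (ε / 3))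
    (lt_min hr₁ (by positivity))
  have ha := hN N le_rfl
  have hb := hN (N + 1) (by omega)
  simp only [Function.comp_apply] at ha hb
  have hlt : φ (ψ N) < φ (ψ (N + 1)) := hφ (hψ (Nat.lt_succ_self N))
  have h2 := chain_iterate (f := f) (show 0 < ε / 3 by positivity) (f^[φ (ψ N)] x)
    (m := φ (ψ (N + 1)) - φ (ψ N)) (by omega)
  rw [← iterate_add_apply, Nat.sub_add_cancel hlt.le] at h2
  have h3 := h2.first (z := w) (ε' := ε / 3) (by
    rw [dist_comm]; exact h₁ _ (ha.trans_le (min_le_left _ _)))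
  have h4 := h3.last (z := w) (ε' := ε / 3) (hb.trans_le (min_le_right _ _))
  exact h4.mono (by linarith)

/-- **In phase theorem**: every point is forward asymptotic to a point of `Om f`. -/
theorem exists_fwdAsymp {c : ℝ} (hc0 : 0 < c) (hc : ExpConst f c) (hsh : Shadowing f) (x : X) :
    ∃ y ∈ Om f, FwdAsymp f x y := by
  obtain ⟨δ₀, hδ₀, hreach⟩ := exists_reach hc0 hc hsh
  obtain ⟨δ₂, hδ₂, hcl⟩ := closing hc0 hc hsh hc0
  obtain ⟨δ₃, hδ₃, hu⟩ := exists_unif_iter f.continuous 1
    (show 0 < min (δ₀ / 3) (δ₂ / 4) from lt_min (by positivity) (by positivity))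
  set δ₁ := min δ₃ (min (δ₀ / 3) (δ₂ / 4)) with hδ₁
  have hδ₁pos : 0 < δ₁ := lt_min hδ₃ (lt_min (by positivity) (by positivity))
  have hδ₁a : δ₁ ≤ δ₃ := min_le_left _ _
  have hδ₁b : δ₁ ≤ δ₀ / 3 := (min_le_right _ _).trans (min_le_left _ _)
  have hδ₁c : δ₁ ≤ δ₂ / 4 := (min_le_right _ _).trans (min_le_right _ _)
  obtain ⟨n₀, hn₀⟩ := exists_near hc0 hc hsh x hδ₁pos
  have : Nonempty X := ⟨x⟩
  choose! z hzOm hzd using hn₀
  have hstep : ∀ n ≥ n₀, Reach f (z (n + 1)) (z n) := by
    intro n hn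
    have h1 : dist (f (f^[n] x)) (f (z n)) < min (δ₀ / 3) (δ₂ / 4) :=
      hu _ _ ((hzd n hn).trans_le hδ₁a) 1 le_rfl
    have h2 := hzd (n + 1) (by omega)
    rw [iterate_succ_apply'] at h2
    have h3 : dist (z (n + 1)) (f (z n)) < δ₀ := by
      have h4 := dist_triangle_left (z (n + 1)) (f (z n)) (f (f^[n] x))
      have h5 := h1.trans_le (min_le_left _ _)
      linarith
    have h4 : f (z n) ∈ Om f := iterate_mem_Om (hzOm n hn) 1
    exact (hreach _ (hzOm (n + 1) (by omega)) _ h4 h3).trans (reach_of_mem_Om (hzOm n hn) 1)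
  have hback : ∀ L, Reach f (z (n₀ + L)) (z n₀) := by
    intro L
    induction L with
    | zero => exact reach_self_of_mem_Om (hzOm n₀ le_rfl)
    | succ L ih => exact (hstep (n₀ + L) (by omega)).trans ih
  -- closed chains
  have hclosed : ∀ L : ℕ, ∃ p ∈ periodicPts f, ∀ i < L, dist (f^[i] p) (f^[n₀ + i] x) < c := by
    intro L
    have h1 := (hback L) (δ₂ / 4) (by positivity)
    have h2 := h1.last (z := f^[n₀] x) (ε' := δ₂ / 4) (by
      rw [dist_comm]; exact (hzd n₀ le_rfl).trans_le hδ₁c)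
    have h3 := h2.first (z := f^[n₀ + L] x) (ε' := δ₂ / 4) (by
      have := hu _ _ ((hzd (n₀ + L) (by omega)).trans_le hδ₁a) 1 le_rfl
      exact this.trans_le (min_le_right _ _))
    obtain ⟨m', c', hm', h0', hl', hc'⟩ := h3.mono (show δ₂ / 4 + δ₂ / 4 + δ₂ / 4 ≤ δ₂ by linarith)
    obtain ⟨p, hp, hpd⟩ := hcl (L + m')
      (fun i => if i < L then f^[n₀ + i] x else c' (i - L)) (by omega) (by
        have h4 : ¬ (L + m' < L) := by omega
        simp only [h4, if_false]
        rcases Nat.eq_zero_or_pos L with rfl | hL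
        · simp [h0', hl']
        · simp only [hL, if_true]
          rw [show L + m' - L = m' by omega, hl']
          simp) (fun i hi => by
        rcases lt_trichotomy (i + 1) L with h | h | h
        · have h5 : i < L := by omega
          simp only [h5, h, if_true]
          rw [← iterate_succ_apply' f, show (n₀ + i).succ = n₀ + (i + 1) by omega, dist_self]
          exact hδ₂
        · have h5 : i < L := by omega
          have h6 : ¬ (i + 1 < L) := by omega
          simp only [h5, h6, if_true, if_false]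
          rw [show i + 1 - L = 0 by omega, h0', ← iterate_succ_apply' f,
            show (n₀ + i).succ = n₀ + L by omega, dist_self]
          exact hδ₂
        · have h5 : ¬ (i < L) := by omega
          have h6 : ¬ (i + 1 < L) := by omega
          simp only [h5, h6, if_false]
          rw [show i + 1 - L = i - L + 1 by omega]
          exact hc' _ (by omega))
    refine ⟨p, ⟨L + m', by omega, hp⟩, fun i hi => ?_⟩
    have := hpd i (by omega)
    simpa only [hi, if_true] using this
  choose p hpper hpd using hclosed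
  obtain ⟨y', -, φ, hφ, hlim⟩ := (isCompact_univ (X := X)).tendsto_subseq
    (x := p) (fun _ => mem_univ _)
  have hy'Om : y' ∈ Om f := mem_closure_of_tendsto hlim
    (Eventually.of_forall (fun k => hpper (φ k)))
  have hy'd : ∀ i, dist (f^[i] (f^[n₀] x)) (f^[i] y') ≤ c := by
    intro i
    have h1 := (((f.continuous.iterate i).tendsto y').comp hlim)
    have h2 : Tendsto (fun k => dist (f^[i] (f^[n₀] x)) (f^[i] (p (φ k)))) atTop
        (𝓝 (dist (f^[i] (f^[n₀] x)) (f^[i] y'))) := tendsto_const_nhds.dist h1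
    refine le_of_tendsto h2 ?_
    filter_upwards [eventually_gt_atTop i] with k hk
    have h3 := hpd (φ k) i (hk.trans_le (hφ.id_le k))
    rw [dist_comm, ← iterate_add_apply, add_comm i n₀]
    exact h3.le
  have h1 := hc.fwdAsymp hy'd
  refine ⟨f.symm^[n₀] y', symm_iterate_mem_Om hy'Om n₀, ?_⟩
  have h2 : f^[n₀] (f.symm^[n₀] y') = y' :=
    (Function.RightInverse.iterate f.apply_symm_apply n₀) y'
  rw [FwdAsymp] at h1 ⊢
  rw [← tendsto_add_atTop_iff_nat n₀]
  refine h1.congr (fun k => ?_)
  rw [iterate_add_apply, iterate_add_apply, h2]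

end Omega

end Pool.Agent.Lib.MP610fe3
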