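import Pool.Agent.Lib.MP_610fe3_an.TopB
import Pool.Agent.Lib.MP_610fe3_an.Transitive

/-!
# The chain theorem for expansive homeomorphisms with shadowing
-/

open Set Filter Function
open scoped Topology

namespace Pool.Agent.Lib.MP610fe3

section Finite

variable {X : Type*} [MetricSpace X] [CompactSpace X] {f g : X ≃ₜ X}

theorem fix_finite {c : ℝ} (hc0 : 0 < c) (hc : ExpConst f c) {m : ℕ} (hm : 0 < m) :
    {x : X | f^[m] x = x}.Finite := by
  obtain ⟨δ, hδ, hu⟩ := exists_unif_iter f.continuous m hc0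
  have hsep : ∀ x y : X, f^[m] x = x → f^[m] y = y → dist x y < δ → x = y := by
    intro x y hx hy hxy
    have hall : ∀ k, dist (f^[k] x) (f^[k] y) ≤ c := by
      intro k
      have hx' : IsPeriodicPt f m x := hx
      have hy' : IsPeriodicPt f m y := hy
      rw [← hx'.iterate_mod_apply k, ← hy'.iterate_mod_apply k]
      exact (hu x y hxy (k % m) (Nat.mod_lt _ hm).le).le
    apply hc x y hall
    intro k
    have hk : k ≤ m * k := Nat.le_mul_of_pos_left k hm
    have hx' : f^[m * k] x = x := (show IsPeriodicPt f m x from hx).mul_const k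
    have hy' : f^[m * k] y = y := (show IsPeriodicPt f m y from hy).mul_const k
    have h1 := symm_iterate_iterate f hk x
    have h2 := symm_iterate_iterate f hk y
    rw [hx'] at h1
    rw [hy'] at h2
    rw [h1, h2]
    exact hall _
  obtain ⟨t, -, ht, hcov⟩ := (isCompact_univ (X := X)).finite_cover_balls
    (show 0 < δ / 2 by positivity)
  have hex : ∀ x : X, ∃ a ∈ t, dist x a < δ / 2 := by
    intro x
    have := hcov (mem_univ x)
    simp only [mem_iUnion, Metric.mem_ball] at this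
    obtain ⟨a, ha, hd⟩ := this
    exact ⟨a, ha, hd⟩
  choose a hat had using hex
  refine Set.Finite.of_injOn (f := a) (t := t) (fun x _ => hat x) ?_ ht
  intro x hx y hy hxy
  apply hsep x y hx hy
  have h1 := had x
  have h2 := had y
  rw [← hxy] at h2
  have h3 := dist_triangle_right x y (a x)
  linarith

theorem periodic_subset {c : ℝ} (hc0 : 0 < c) (hc : ExpConst f c)
    (hcomm : ∀ x, f (g x) = g (f x)) : periodicPts f ⊆ periodicPts g := by
  rintro p ⟨m, hm, hp⟩
  have hfin := fix_finite hc0 hc hm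
  have hC : Function.Commute f g := hcomm
  have hmem : ∀ n, g^[n] p ∈ {x : X | f^[m] x = x} := by
    intro n
    have h1 : f^[m] (g^[n] p) = g^[n] (f^[m] p) := ((hC.iterate_left m).iterate_right n) p
    have h2 : f^[m] p = p := hp
    rw [mem_setOf_eq, h1, h2]
  obtain ⟨n, n', hlt, heq⟩ := hfin.exists_lt_map_eq_of_forall_mem hmem
  refine ⟨n' - n, by omega, ?_⟩
  have h1 : g^[n] (g^[n' - n] p) = g^[n] p := by
    rw [← iterate_add_apply, show n + (n' - n) = n' by omega, heq]
  exact (g.injective.iterate n) h1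

theorem Om_eq {c c' : ℝ} (hc0 : 0 < c) (hc : ExpConst f c) (hc0' : 0 < c') (hc' : ExpConst g c')
    (hcomm : ∀ x, f (g x) = g (f x)) : Om f = Om g := by
  have h : periodicPts f = periodicPts g :=
    Subset.antisymm (periodic_subset hc0 hc hcomm)
      (periodic_subset hc0' hc' (fun x => (hcomm x).symm))
  rw [Om, Om, h]

end Finite

section InvSets

variable {X : Type*} [MetricSpace X]

/-- `E` is a clopen subset of `A`, invariant under `f^N`. -/
structure InvSet (f : X ≃ₜ X) (A : Set X) (N : ℕ) (E : Set X) : Prop where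
  sub : E ⊆ A
  closed : IsClosed E
  closed' : IsClosed (A \ E)
  inv : f^[N] '' E = E

/-- The clopen subsets of `A` invariant under a power of `f`. -/
def Bset (f : X ≃ₜ X) (A : Set X) : Set (Set X) := {E | ∃ N, 0 < N ∧ InvSet f A N E}

variable {f g : X ≃ₜ X}

theorem iterate_maps {E : Set X} {N : ℕ} (h : f^[N] '' E = E) {x : X} (hx : x ∈ E) (k : ℕ) :
    f^[N * k] x ∈ E := by
  rw [iterate_mul]
  induction k with
  | zero => exact hx
  | succ k ih =>
    rw [iterate_succ_apply']
    rw [← h]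
    exact mem_image_of_mem _ ih

theorem image_Om (f : X ≃ₜ X) (k : ℕ) : f^[k] '' (Om f) = Om f := by
  apply Subset.antisymm
  · rintro _ ⟨x, hx, rfl⟩
    exact iterate_mem_Om hx k
  · intro x hx
    exact ⟨f.symm^[k] x, symm_iterate_mem_Om hx k,
      (Function.RightInverse.iterate f.apply_symm_apply k) x⟩

theorem image_compl {A E : Set X} {N : ℕ} (hA : f^[N] '' A = A) (h : f^[N] '' E = E) :
    f^[N] '' (A \ E) = A \ E := by
  rw [image_diff (f.injective.iterate N), hA, h]

theorem mem_of_fwdAsymp_periodic {E : Set X} {N : ℕ} (hN : 0 < N) (hE : IsClosed E)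
    (h : f^[N] '' E = E) {z q : X} (hz : z ∈ E) (hq : q ∈ periodicPts f)
    (ha : FwdAsymp f z q) : q ∈ E := by
  obtain ⟨m, hm, hqm⟩ := hq
  have h1 : ∀ j, f^[N * (m * j)] q = q := by
    intro j
    have := (show IsPeriodicPt f m q from hqm).mul_const (N * j)
    have h2 : m * (N * j) = N * (m * j) := by ring
    rw [h2] at this
    exact this
  have h2 : Tendsto (fun j => N * (m * j)) atTop atTop := by
    apply tendsto_atTop_mono (fun j => ?_) tendsto_id
    calc j ≤ m * j := Nat.le_mul_of_pos_left j hm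
      _ ≤ N * (m * j) := Nat.le_mul_of_pos_left _ hN
  have h3 : Tendsto (fun j => dist (f^[N * (m * j)] z) q) atTop (𝓝 0) := by
    have h4 := (show Tendsto (fun k : ℕ => dist (f^[k] z) (f^[k] q)) atTop (𝓝 0) from ha).comp h2
    refine h4.congr (fun j => ?_)
    simp only [Function.comp_apply]
    rw [h1]
  exact hE.mem_of_tendsto (tendsto_iff_dist_tendsto_zero.2 h3)
    (Eventually.of_forall (fun j => iterate_maps h hz _))

theorem symm_image {E : Set X} {N : ℕ} (h : f^[N] '' E = E) : f.symm^[N] '' E = E := by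
  have h3 : Function.LeftInverse (f.symm^[N]) (f^[N]) :=
    Function.LeftInverse.iterate f.symm_apply_apply N
  conv_lhs => rw [← h]
  rw [← image_comp]
  have : f.symm^[N] ∘ f^[N] = id := funext h3
  rw [this, image_id]

theorem symm_periodic {q : X} (hq : q ∈ periodicPts f) : q ∈ periodicPts f.symm := by
  obtain ⟨m, hm, hqm⟩ := hq
  refine ⟨m, hm, ?_⟩
  have h3 : Function.LeftInverse (f.symm^[m]) (f^[m]) :=
    Function.LeftInverse.iterate f.symm_apply_apply m
  have h1 : f^[m] q = q := hqm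
  have h2 := h3 q
  rw [h1] at h2
  exact h2

theorem Om_symm (f : X ≃ₜ X) : Om f.symm = Om f := by
  have h : periodicPts f.symm = periodicPts f :=
    Subset.antisymm (fun q hq => by simpa using symm_periodic hq) (fun q hq => symm_periodic hq)
  rw [Om, Om, h]

variable [CompactSpace X]

theorem exists_close {c : ℝ} (hc0 : 0 < c) (hc : ExpConst f c) (hsh : Shadowing f) :
    ∃ δ : ℝ, 0 < δ ∧ ∀ E ∈ Bset f (Om f), ∀ y ∈ Om f, ∀ y' ∈ Om f, dist y y' < δ →
      y ∈ E → y' ∈ E := by
  obtain ⟨δ₁, hδ₁, hb⟩ := bracket hc0 hc hsh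
  obtain ⟨δ₂, hδ₂, hr⟩ := exists_reach hc0 hc hsh
  set δ := min δ₁ δ₂ with hδ
  have hδpos : 0 < δ := lt_min hδ₁ hδ₂
  -- periodic points first
  have hper : ∀ E ∈ Bset f (Om f), ∀ p ∈ periodicPts f, ∀ q ∈ periodicPts f, dist p q < δ →
      p ∈ E → q ∈ E := by
    rintro E ⟨N, hN, hE⟩ p hp q hq hpq hpE
    obtain ⟨z, hz1, hz2⟩ := hb p q (hpq.trans_le (min_le_left _ _))
    have hqp : Reach f q p := hr q (subset_closure hq) p (subset_closure hp) (by
      rw [dist_comm]; exact hpq.trans_le (min_le_right _ _))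
    have hzz : Reach f z z := ((reach_of_fwdAsymp (subset_closure hq) hz2).trans hqp).trans
      (reach_of_bwdAsymp (subset_closure hp) hz1)
    have hzO : z ∈ Om f := mem_closure_of_reach hc0 hc hsh hzz
    by_cases hzE : z ∈ E
    · exact mem_of_fwdAsymp_periodic hN hE.closed hE.inv hzE hq hz2
    · exfalso
      have h1 := image_compl (image_Om f N) hE.inv
      have h2 := mem_of_fwdAsymp_periodic (f := f.symm) hN hE.closed' (symm_image h1)
        (show z ∈ Om f \ E from ⟨hzO, hzE⟩) (symm_periodic hp) hz1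
      exact h2.2 hpE
  refine ⟨δ / 2, by positivity, ?_⟩
  intro E hEB y hy y' hy' hd hyE
  by_contra hy'E
  obtain ⟨N, hN, hE⟩ := hEB
  -- periodic approximations
  have hop1 : ∃ r > 0, ∀ w, dist w y < r → w ∉ Om f \ E := by
    have := hE.closed'.isOpen_compl.mem_nhds (show y ∈ (Om f \ E)ᶜ from fun h => h.2 hyE)
    obtain ⟨r, hr, hb⟩ := Metric.mem_nhds_iff.1 this
    exact ⟨r, hr, fun w hw => hb hw⟩
  have hop2 : ∃ r > 0, ∀ w, dist w y' < r → w ∉ E := by
    have := hE.closed.isOpen_compl.mem_nhds (show y' ∈ Eᶜ from hy'E)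
    obtain ⟨r, hr, hb⟩ := Metric.mem_nhds_iff.1 this
    exact ⟨r, hr, fun w hw => hb hw⟩
  obtain ⟨r₁, hr₁, h₁⟩ := hop1
  obtain ⟨r₂, hr₂, h₂⟩ := hop2
  obtain ⟨p, hp, hyp⟩ := Metric.mem_closure_iff.1 hy (min r₁ (δ / 4))
    (lt_min hr₁ (by positivity))
  obtain ⟨q, hq, hyq⟩ := Metric.mem_closure_iff.1 hy' (min r₂ (δ / 4))
    (lt_min hr₂ (by positivity))
  rw [dist_comm] at hyp hyq
  have hpE : p ∈ E := by
    by_contra hpE
    exact h₁ p (hyp.trans_le (min_le_left _ _)) ⟨subset_closure hp, hpE⟩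
  have hqE : q ∉ E := h₂ q (hyq.trans_le (min_le_left _ _))
  apply hqE
  apply hper E ⟨N, hN, hE⟩ p hp q hq _ hpE
  have h2 := hyp.trans_le (min_le_right _ _)
  have h3 := hyq.trans_le (min_le_right _ _)
  have h4 := dist_triangle4 p y y' q
  rw [dist_comm y' q] at h4
  linarith

theorem Bset_finite {c : ℝ} (hc0 : 0 < c) (hc : ExpConst f c) (hsh : Shadowing f) :
    (Bset f (Om f)).Finite := by
  obtain ⟨δ, hδ, hcl⟩ := exists_close hc0 hc hsh
  obtain ⟨t, htA, ht, hcov⟩ := ((isClosed_Om f).isCompact).finite_cover_balls hδ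
  refine Set.Finite.of_injOn (f := fun E => E ∩ t) (t := {s | s ⊆ t})
    (fun E _ => inter_subset_right) ?_ ht.finite_subsets
  have key : ∀ E ∈ Bset f (Om f), ∀ E' ∈ Bset f (Om f), E ∩ t = E' ∩ t → E ⊆ E' := by
    intro E hE E' hE' heq y hy
    have hyA : y ∈ Om f := by
      obtain ⟨N, hN, h⟩ := hE
      exact h.sub hy
    have := hcov hyA
    simp only [mem_iUnion, Metric.mem_ball] at this
    obtain ⟨a, ha, hd⟩ := this
    have h1 : a ∈ E := hcl E hE y hyA a (htA ha) hd hy
    have h2 : a ∈ E' ∩ t := by rw [← heq]; exact ⟨h1, ha⟩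
    exact hcl E' hE' a (htA ha) y hyA (by rw [dist_comm]; exact hd) h2.1
  intro E hE E' hE' heq
  exact Subset.antisymm (key E hE E' hE' heq) (key E' hE' E hE heq.symm)

theorem Bset_subset {c : ℝ} (hc0 : 0 < c) (hc : ExpConst f c) (hsh : Shadowing f)
    (hcomm : ∀ x, f (g x) = g (f x)) (hOm : Om f = Om g) :
    Bset f (Om f) ⊆ Bset g (Om f) := by
  intro E hE
  have hfin := Bset_finite hc0 hc hsh
  have hstep : ∀ E ∈ Bset f (Om f), g '' E ∈ Bset f (Om f) := by
    rintro E ⟨N, hN, h⟩
    have hgA : g '' (Om f) = Om f := by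
      have := image_Om g 1
      rw [iterate_one] at this
      rw [hOm]; exact this
    refine ⟨N, hN, ?_, ?_, ?_, ?_⟩
    · rw [← hgA]; exact image_mono h.sub
    · exact g.isClosedMap _ h.closed
    · have : Om f \ g '' E = g '' (Om f \ E) := by
        rw [image_diff g.injective, hgA]
      rw [this]
      exact g.isClosedMap _ h.closed'
    · have hC : Function.Commute f g := hcomm
      have h1 : f^[N] ∘ g = g ∘ f^[N] := funext (hC.iterate_left N)
      rw [← image_comp, h1, image_comp, h.inv]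
  have hiter : ∀ n, g^[n] '' E ∈ Bset f (Om f) := by
    intro n
    induction n with
    | zero => simpa using hE
    | succ n ih =>
      rw [iterate_succ', image_comp]
      exact hstep _ ih
  obtain ⟨n, n', hlt, heq⟩ := hfin.exists_lt_map_eq_of_forall_mem hiter
  obtain ⟨N, hN, h⟩ := hE
  refine ⟨n' - n, by omega, h.sub, h.closed, h.closed', ?_⟩
  have h1 : g^[n] '' (g^[n' - n] '' E) = g^[n] '' E := by
    rw [← image_comp, ← iterate_add, show n + (n' - n) = n' by omega, heq]
  exact (g.injective.iterate n).image_injective h1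

/-- The stable set of `E`. -/
def Wst (f : X → X) (E : Set X) : Set X := {x | ∃ y ∈ E, FwdAsymp f x y}

theorem Wst_disjoint {E : Set X} (hE : E ∈ Bset f (Om f)) {x y y' : X} (hy : y ∈ E)
    (hy' : y' ∈ Om f) (hy'E : y' ∉ E) (h : FwdAsymp f x y) (h' : FwdAsymp f x y') : False := by
  obtain ⟨N, hN, hI⟩ := hE
  have hdis : Disjoint E (Om f \ E) := disjoint_sdiff_right
  obtain ⟨r, hr, hd⟩ := Metric.exists_pos_forall_lt_edist (hI.closed.isCompact) hI.closed' hdis
  have h1 : Tendsto (fun k : ℕ => dist (f^[k] y) (f^[k] y')) atTop (𝓝 0) := by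
    have h2 : Tendsto (fun k : ℕ => dist (f^[k] x) (f^[k] y) + dist (f^[k] x) (f^[k] y')) atTop
        (𝓝 (0 + 0)) := Tendsto.add h h'
    rw [add_zero] at h2
    exact squeeze_zero (fun _ => dist_nonneg) (fun k => dist_triangle_left _ _ _) h2
  obtain ⟨n, hn⟩ := (Metric.tendsto_atTop.1 h1) r (by exact_mod_cast hr)
  have h3 := hn (N * n) (Nat.le_mul_of_pos_left n hN)
  rw [Real.dist_0_eq_abs, abs_of_nonneg dist_nonneg] at h3
  have h4 := hd _ (iterate_maps hI.inv hy n) _
    (iterate_maps (image_compl (image_Om f N) hI.inv) ⟨hy', hy'E⟩ n)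
  rw [edist_dist] at h4
  have h5 : (r : ℝ) < dist (f^[N * n] y) (f^[N * n] y') := by
    have h6 := (ENNReal.lt_ofReal_iff_toReal_lt (by simp)).1 h4
    simpa using h6
  linarith

/-- Nested asymptotic relations give equal stable sets. -/
theorem Wst_eq {c : ℝ} (hc0 : 0 < c) (hc : ExpConst f c) (hsh : Shadowing f)
    (hOm : Om f = Om g) (hnest : ∀ x y, FwdAsymp f x y → FwdAsymp g x y)
    {E : Set X} (hEg : E ∈ Bset g (Om g)) : Wst f E = Wst g E := by
  apply Subset.antisymm
  · rintro x ⟨y, hy, h⟩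
    exact ⟨y, hy, hnest x y h⟩
  · rintro x ⟨y, hy, h⟩
    obtain ⟨y', hy', h'⟩ := exists_fwdAsymp hc0 hc hsh x
    rw [hOm] at hy'
    by_cases hy'E : y' ∈ E
    · exact ⟨y', hy'E, h'⟩
    · exact (Wst_disjoint hEg hy hy' hy'E h (hnest x y' h')).elim

end InvSets

section ChainTheorem

variable {X : Type*} [MetricSpace X] [CompactSpace X]

theorem chain_theorem [ConnectedSpace X] (k : ℕ) (g : ℕ → X ≃ₜ X)
    (hexp : ∀ i ≤ k, Expansive (g i)) (hsh : ∀ i ≤ k, Shadowing (g i))
    (hcomm : ∀ i < k, ∀ x, g i (g (i + 1) x) = g (i + 1) (g i x))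
    (hnest : ∀ i < k, (∀ x y, FwdAsymp (g i) x y → FwdAsymp (g (i + 1)) x y) ∨
      (∀ x y, FwdAsymp (g (i + 1)) x y → FwdAsymp (g i) x y))
    (hend : ∀ x, g k (g 0 x) = x) : ChainTransitive (g 0) := by
  have hexp' : ∀ i ≤ k, ∃ c, 0 < c ∧ ExpConst (g i) c := hexp
  choose! c hc0 hc using hexp'
  -- the induction along the chain
  have hind : ∀ i ≤ k, Om (g i) = Om (g 0) ∧
      Bset (g i) (Om (g i)) = Bset (g 0) (Om (g 0)) ∧
      ∀ E ∈ Bset (g 0) (Om (g 0)), Wst (g i) E = Wst (g 0) E := by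
    intro i
    induction i with
    | zero => intro _; exact ⟨rfl, rfl, fun _ _ => rfl⟩
    | succ i ih =>
      intro hi
      obtain ⟨h1, h2, h3⟩ := ih (by omega)
      have hi' : i ≤ k := by omega
      have hOm : Om (g i) = Om (g (i + 1)) :=
        Om_eq (hc0 i hi') (hc i hi') (hc0 _ hi) (hc _ hi) (hcomm i (by omega))
      have hB : Bset (g i) (Om (g i)) = Bset (g (i + 1)) (Om (g (i + 1))) := by
        apply Subset.antisymm
        · have := Bset_subset (hc0 i hi') (hc i hi') (hsh i hi') (hcomm i (by omega)) hOm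
          rwa [← hOm]
        · have := Bset_subset (hc0 _ hi) (hc _ hi) (hsh _ hi)
            (fun x => (hcomm i (by omega) x).symm) hOm.symm
          rwa [← hOm] at this ⊢
      refine ⟨hOm.symm.trans h1, hB.symm.trans h2, fun E hE => ?_⟩
      rw [← h3 E hE]
      have hE1 : E ∈ Bset (g i) (Om (g i)) := by rw [h2]; exact hE
      have hE2 : E ∈ Bset (g (i + 1)) (Om (g (i + 1))) := by rw [← hB]; exact hE1
      rcases hnest i (by omega) with hn | hn
      · exact (Wst_eq (hc0 i hi') (hc i hi') (hsh i hi') hOm hn hE2).symm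
      · exact Wst_eq (hc0 _ hi) (hc _ hi) (hsh _ hi) hOm.symm hn hE1
  obtain ⟨hOmk, -, hWk⟩ := hind k le_rfl
  set f := g 0 with hf
  have hc0f := hc0 0 (Nat.zero_le k)
  have hcf := hc 0 (Nat.zero_le k)
  have hshf := hsh 0 (Nat.zero_le k)
  have hgk : ∀ x, g k x = f.symm x := by
    intro x
    have := hend (f.symm x)
    rw [f.apply_symm_apply] at this
    exact this
  have hgk' : (g k : X → X) = f.symm := funext hgk
  obtain ⟨δ, hδ, hreach⟩ := exists_reach hc0f hcf hshf
  -- the chain class of a point of `Om f`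
  have hclass : ∀ y ∈ Om f, {w | w ∈ Om f ∧ Reach f w y ∧ Reach f y w} ∈ Bset f (Om f) := by
    intro y hy
    have hclose : ∀ w ∈ Om f, ∀ w' ∈ Om f, dist w w' < δ →
        (Reach f w y ∧ Reach f y w) → (Reach f w' y ∧ Reach f y w') := by
      intro w hw w' hw' hd h
      exact ⟨(hreach w' hw' w hw (by rw [dist_comm]; exact hd)).trans h.1,
        h.2.trans (hreach w hw w' hw' hd)⟩
    refine ⟨1, one_pos, fun w hw => hw.1, ?_, ?_, ?_⟩
    · apply isClosed_of_closure_subset
      intro w hw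
      have hwO : w ∈ Om f := closure_minimal (fun w hw => hw.1) (isClosed_Om f) hw
      obtain ⟨w', hw', hd⟩ := Metric.mem_closure_iff.1 hw δ hδ
      exact ⟨hwO, hclose w' hw'.1 w hwO (by rw [dist_comm]; exact hd) hw'.2⟩
    · apply isClosed_of_closure_subset
      intro w hw
      have hwO : w ∈ Om f := closure_minimal (fun w hw => hw.1) (isClosed_Om f) hw
      obtain ⟨w', hw', hd⟩ := Metric.mem_closure_iff.1 hw δ hδ
      refine ⟨hwO, fun h => hw'.2 ⟨hw'.1, hclose w hwO w' hw'.1 hd h.2⟩⟩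
    · rw [iterate_one]
      apply Subset.antisymm
      · rintro _ ⟨w, ⟨hw, h1, h2⟩, rfl⟩
        have h3 : Reach f (f w) w := reach_of_mem_Om hw 1
        have h4 : Reach f w (f w) := reach_iterate f w (m := 1) one_pos
        exact ⟨iterate_mem_Om hw 1, h3.trans h1, h2.trans h4⟩
      · rintro w ⟨hw, h1, h2⟩
        have hw' : f.symm w ∈ Om f := symm_iterate_mem_Om hw 1
        have h3 : Reach f w (f.symm w) := by
          have := reach_of_mem_Om hw' 1
          rwa [iterate_one, f.apply_symm_apply] at this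
        have h4 : Reach f (f.symm w) w := by
          have := reach_iterate f (f.symm w) (m := 1) one_pos
          rwa [iterate_one, f.apply_symm_apply] at this
        exact ⟨f.symm w, ⟨hw', h4.trans h1, h2.trans h3⟩, f.apply_symm_apply w⟩
  -- every point is in `Om f`
  have hall : ∀ x, x ∈ Om f := by
    intro x
    obtain ⟨y, hy, hxy⟩ := exists_fwdAsymp hc0f hcf hshf x
    have hE := hclass y hy
    have hx : x ∈ Wst f {w | w ∈ Om f ∧ Reach f w y ∧ Reach f y w} :=
      ⟨y, ⟨hy, reach_self_of_mem_Om hy, reach_self_of_mem_Om hy⟩, hxy⟩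
    rw [← hWk _ hE, hgk'] at hx
    obtain ⟨y', ⟨hy', h1, h2⟩, hxy'⟩ := hx
    apply mem_closure_of_reach hc0f hcf hshf
    exact ((reach_of_fwdAsymp hy hxy).trans h2).trans (reach_of_bwdAsymp hy' hxy')
  -- conclusion by connectedness
  intro x y
  have hcl : IsClopen {w | w ∈ Om f ∧ Reach f w y ∧ Reach f y w} := by
    obtain ⟨N, hN, h⟩ := hclass y (hall y)
    refine ⟨h.closed, ?_⟩
    have := h.closed'
    have h2 : Om f = univ := eq_univ_of_forall hall
    rw [h2, ← compl_eq_univ_diff] at this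
    rw [h2]
    exact isClosed_compl_iff.1 this
  have huniv := hcl.eq_univ ⟨y, hall y, reach_self_of_mem_Om (hall y),
    reach_self_of_mem_Om (hall y)⟩
  have hx : x ∈ {w | w ∈ Om f ∧ Reach f w y ∧ Reach f y w} := by rw [huniv]; trivial
  exact hx.2.1

end ChainTheorem

end Pool.Agent.Lib.MP610fe3
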